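import Mathlib
import Pool.Agent.helper94.RB.Base

set_option autoImplicit false

/-!
# The near structure and the families of cycles through the chord `(0, s)`
-/

namespace Pool.Agent.helper64.RE

open Pool.Agent.helper94.Rainbow Pool.Agent.helper94.RainbowTwice Pool.Agent.helper94.RB

variable {V C : Type} {c : Sym2 V → C} {n t m : ℕ} {v : ℤ → V} {β : ℤ → ℤ} {s x : ℤ}

/-- `4 ∣ n`, `m = 2n - 4 + t` with `3 ≤ t ≤ n - 2`, `t` even; there is a rainbow `m`-cycle `v`, but
no rainbow `n`-cycle and no rainbow `L`-cycle for even `L` with `2n - 3 ≤ L < m`. (This file is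
adapted from the corresponding file for odd `n`, `Pool.Agent.helper94.RB.Near`.) -/
structure Base (c : Sym2 V → C) (n t m : ℕ) (v : ℤ → V) : Prop where
  F : Frame c m v
  hm : m + 4 = 2 * n + t
  ht : 3 ≤ t
  htn : t + 2 ≤ n
  hn : n % 4 = 0
  hte : t % 2 = 0
  no : ¬ HasRainbowCycle c n
  noL : ∀ L, L % 2 = 0 → 2 * n ≤ L + 3 → L < m → ¬ HasRainbowCycle c L

/-- The near structure: the chords `C_x = (x, x + n - 1)` and `H_x = (x - t + 1, x)` both have
colour `β x`, where `β x ≥ x` is the last element of the block of `x` in a partition of `ℤ`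
(periodic mod `m`) into intervals. -/
structure Near (c : Sym2 V → C) (n t m : ℕ) (v : ℤ → V) (β : ℤ → ℤ) : Prop
    extends Base c n t m v where
  le : ∀ x, x ≤ β x
  blk : ∀ x y, x ≤ y → y ≤ β x → β y = β x
  per : ∀ x, β (x + m) = β x + m
  colC : ∀ x, Col c v x (x + n - 1) (β x)
  colH : ∀ x, Col c v (x - t + 1) x (β x)

theorem Frame.shift (F : Frame c m v) (e : ℤ) : Frame c m (fun x => v (x + e)) := by
  refine ⟨?_, ?_, ?_⟩
  · intro x
    show v (x + m + e) = v (x + e)
    rw [show x + m + e = x + e + m by ring, F.per]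
  · intro x y h
    have := F.inj _ _ h
    rwa [show x + e - (y + e) = x - y by ring] at this
  · intro x y h
    have h' : c s(v (x + e), v (x + e + 1)) = c s(v (y + e), v (y + e + 1)) := by
      have e1 : ∀ z : ℤ, z + e + 1 = z + 1 + e := fun z => by ring
      rw [e1, e1]; exact h
    have := F.cinj _ _ h'
    rwa [show x + e - (y + e) = x - y by ring] at this

theorem Base.shift (N : Base c n t m v) (e : ℤ) : Base c n t m (fun x => v (x + e)) :=
  ⟨Frame.shift N.F e, N.hm, N.ht, N.htn, N.hn, N.hte, N.no, N.noL⟩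

theorem Col.shiftFrame {x y g : ℤ} (e : ℤ) (h : Col c v (x + e) (y + e) (g + e)) :
    Col c (fun x => v (x + e)) x y g := by
  unfold Col at *
  show c s(v (x + e), v (y + e)) = c s(v (g + e), v (g + 1 + e))
  rw [show g + 1 + e = g + e + 1 by ring]
  exact h

/-- translating a near structure -/
theorem Near.shift (N : Near c n t m v β) (e : ℤ) :
    Near c n t m (fun x => v (x + e)) (fun x => β (x + e) - e) := by
  refine ⟨N.toBase.shift e, ?_, ?_, ?_, ?_, ?_⟩
  · intro x
    have := N.le (x + e)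
    show x ≤ β (x + e) - e
    omega
  · intro x y h1 h2
    have h2' : y ≤ β (x + e) - e := h2
    show β (y + e) - e = β (x + e) - e
    rw [N.blk (x + e) (y + e) (by omega) (by omega)]
  · intro x
    show β (x + m + e) - e = β (x + e) - e + m
    rw [show x + m + e = x + e + m by ring, N.per]
    ring
  · intro x
    refine Col.shiftFrame e ?_
    have := N.colC (x + e)
    rw [show x + n - 1 + e = x + e + n - 1 by ring, show β (x + e) - e + e = β (x + e) by ring]
    exact this
  · intro x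
    refine Col.shiftFrame e ?_
    have := N.colH (x + e)
    rw [show x - t + 1 + e = x + e - t + 1 by ring, show β (x + e) - e + e = β (x + e) by ring]
    exact this

theorem Near.idem (N : Near c n t m v β) (x : ℤ) : β (β x) = β x := N.blk x (β x) (N.le x) le_rfl

theorem Near.per' (N : Near c n t m v β) (x : ℤ) : β (x - m) = β x - m := by
  have := N.per (x - m)
  rw [show x - (m : ℤ) + m = x by ring] at this
  omega

/-- either the block of `x` ends before `y` or `x` and `y` are in the same block -/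
theorem Near.lt_or (N : Near c n t m v β) {x y : ℤ} (h : x ≤ y) : β x < y ∨ β x = β y := by
  rcases lt_or_ge (β x) y with h1 | h1
  · exact Or.inl h1
  · exact Or.inr (N.blk x y h h1).symm

theorem Near.mono (N : Near c n t m v β) {x y : ℤ} (h : x ≤ y) : β x ≤ β y := by
  have := N.le y
  rcases N.lt_or h with h1 | h1 <;> omega

/-- the first element of the block of `x` -/
theorem Near.exists_start (N : Near c n t m v β) {S : ℤ} (hS : ∀ x, β x ≤ x + S) (x : ℤ) :
    ∃ δ, δ ≤ x ∧ β δ = β x ∧ β (δ - 1) = δ - 1 ∧ β x ≤ δ + S := by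
  have hb : ∃ b : ℤ, ∀ z, z ≤ x ∧ β z = β x → b ≤ z := by
    refine ⟨β x - S, ?_⟩
    rintro z ⟨h1, h2⟩
    have := hS z
    omega
  obtain ⟨δ, ⟨h1, h2⟩, h3⟩ := Int.exists_least_of_bdd (P := fun z => z ≤ x ∧ β z = β x) hb
    ⟨x, le_rfl, rfl⟩
  refine ⟨δ, h1, h2, ?_, by have := hS δ; omega⟩
  have h4 := N.le (δ - 1)
  rcases N.lt_or (show δ - 1 ≤ δ by omega) with h5 | h5
  · omega
  · have := h3 (δ - 1) ⟨by omega, by rw [h5, h2]⟩
    omega

/-- absent lengths as integers -/
theorem Base.absent (N : Base c n t m v) {L : ℤ}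
    (h : L = n ∨ (2 * n - 3 ≤ L ∧ L < m ∧ L % 2 = 0)) : ∃ L' : ℕ, (L' : ℤ) = L ∧ 3 ≤ L' ∧
      ¬ HasRainbowCycle c L' := by
  have h1 := N.htn
  have h2 := N.ht
  have h3 := N.hm
  refine ⟨L.toNat, by omega, by omega, ?_⟩
  rcases h with h | h
  · rw [show L.toNat = n by omega]; exact N.no
  · exact N.noL _ (by omega) (by omega) (by omega)

/-- The chord `X = (0, s)` has label `x ∈ [0, m)`; `0` is the end of a block. -/
structure Kill (c : Sym2 V → C) (n t m : ℕ) (v : ℤ → V) (β : ℤ → ℤ) (s x : ℤ) : Prop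
    extends Near c n t m v β where
  e0 : β 0 = 0
  hs : 1 ≤ s
  hsm : s < m
  hX : Col c v 0 s x
  x0 : 0 ≤ x
  xm : x < m

theorem Kill.cases (K : Kill c n t m v β s x) {q : ℤ} (h : Col c v s 0 q) (h1 : -m ≤ q)
    (h2 : q < 2 * m) : x = q ∨ x = q + m ∨ x = q - m := by
  obtain ⟨k, hk⟩ := Col.uniq K.F K.hX h.symm
  have hx := K.x0
  have hx' := K.xm
  have hm := K.hm
  have := K.ht
  have := K.htn
  have hm0 : (0 : ℤ) < m := by omega
  have k1 : k < 2 := by
    by_contra hcon
    have : (m : ℤ) * 2 ≤ m * k := by gcongr; omega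
    omega
  have k2 : -2 < k := by
    by_contra hcon
    have : (m : ℤ) * k ≤ m * (-2) := by gcongr; omega
    omega
  have : k = -1 ∨ k = 0 ∨ k = 1 := by omega
  rcases this with rfl | rfl | rfl <;> omega

/-- family `β⁻`: down-walk to `a`, `C_a`, up to `b + m`, `C_b` where `b = y - n + 1`, down from
`y` to `s`. -/
theorem Kill.beta (K : Kill c n t m v β s x) {a k y b : ℤ} (W : Wk c v a 0 a 0 (β a) 0 a k)
    (ha : a ≤ 0) (hb : b = y - n + 1) (hy : s ≤ y)
    (hcount : k + (b + m - (a + n - 1) + 1) + (y - s + 1) = n)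
    (h1 : β b < a) (h2 : a + n - 1 ≤ b + m) :
    a + m ≤ x ∨ x = 0 ∨ (a + n - 1 ≤ x ∧ x < b + m) ∨ x = β b + m ∨ (s ≤ x ∧ x < y) := by
  have hm := K.hm
  have ht := K.ht
  have htn := K.htn
  have hs := K.hs
  have hx := K.x0
  have hx' := K.xm
  have b1 := K.le b
  have b2 := K.le a
  have b3 := K.mono ha
  have e0 := K.e0
  rw [e0] at b3
  obtain ⟨q, hq, hq'⟩ := tri K.F W K.no (by omega) (a + n - 1) (b + m) (a + n - 1) (b + m) (β a)
    y s s y (β b + m) a a (K.colC a)
    ((K.colC b).shift1 K.F (by omega) (by omega) (by omega))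
    (by omega) (by omega) (by omega) (by omega) (by omega) (by omega) (by omega) (by omega)
    (by omega)
  rcases K.cases hq (by omega) (by omega) with h | h | h <;> omega

/-- family `W`: the same with `y < s`, then up from `y` to `s`. -/
theorem Kill.betaW (K : Kill c n t m v β s x) {a k y b : ℤ} (W : Wk c v a 0 a 0 (β a) 0 a k)
    (ha : a ≤ 0) (hb : b = y - n + 1) (hy : y ≤ s) (hy0 : 1 ≤ y) (hsa : s < a + n - 1)
    (hcount : k + (b + m - (a + n - 1) + 1) + (s - y + 1) = n)
    (h1 : β b < a) (h2 : a + n - 1 ≤ b + m) :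
    a + m ≤ x ∨ x = 0 ∨ (a + n - 1 ≤ x ∧ x < b + m) ∨ x = β b + m ∨ (y ≤ x ∧ x < s) := by
  have hm := K.hm
  have ht := K.ht
  have htn := K.htn
  have hs := K.hs
  have hx := K.x0
  have hx' := K.xm
  have b1 := K.le b
  have b2 := K.le a
  have b3 := K.mono ha
  have e0 := K.e0
  rw [e0] at b3
  obtain ⟨q, hq, hq'⟩ := tri K.F W K.no (by omega) (a + n - 1) (b + m) (a + n - 1) (b + m) (β a)
    y s y s (β b + m) a a (K.colC a)
    ((K.colC b).shift1 K.F (by omega) (by omega) (by omega))
    (by omega) (by omega) (by omega) (by omega) (by omega) (by omega) (by omega) (by omega)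
    (by omega)
  rcases K.cases hq (by omega) (by omega) with h | h | h <;> omega

/-- family `α⁻`: down-walk to `a`, `C_a`, up to `d + n - 1`, `C_d` down to `d`, down to `s`. -/
theorem Kill.alpha (K : Kill c n t m v β s x) {a k d : ℤ} (W : Wk c v a 0 a 0 (β a) 0 a k)
    (ha : a ≤ 0) (hd : s ≤ d)
    (hcount : k + (d - a + 1) + (d - s + 1) = n)
    (h1 : β d < a + n - 1) (h2 : d + n - 1 < a + m) :
    a + m ≤ x ∨ x = 0 ∨ (a + n - 1 ≤ x ∧ x < d + n - 1) ∨ x = β d ∨ (s ≤ x ∧ x < d) := by
  have hm := K.hm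
  have ht := K.ht
  have htn := K.htn
  have hs := K.hs
  have hx := K.x0
  have hx' := K.xm
  have b1 := K.le d
  have b2 := K.le a
  have b3 := K.mono ha
  have e0 := K.e0
  rw [e0] at b3
  obtain ⟨q, hq, hq'⟩ := tri K.F W K.no (by omega) (a + n - 1) (d + n - 1) (a + n - 1) (d + n - 1)
    (β a) d s s d (β d) a a (K.colC a) (K.colC d).symm
    (by omega) (by omega) (by omega) (by omega) (by omega) (by omega) (by omega) (by omega)
    (by omega)
  rcases K.cases hq (by omega) (by omega) with h | h | h <;> omega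

/-- the up-walk from `0` to a block end `e` -/
theorem Near.upWalk (N : Near c n t m v β) {e : ℤ} (he : 0 ≤ e) (hb : β e = e) :
    Wk c v 0 e 0 (e - 1) (β e) 0 e (e + 1) := by
  have := Wk.arc (c := c) (v := v) (x := 0) (y := e) (l := 0) (r := e) (z := β e)
    (Or.inl ⟨rfl, rfl⟩) he (by omega)
  simpa using this

/-- family `β_e`: up from `0` to a block end `e < s`, `C_e`, up to `b + m`, `C_b`, down from
`y = b + n - 1` to `s`. -/
theorem Kill.betaUp (K : Kill c n t m v β s x) {e y b : ℤ} (he : 0 ≤ e) (hes : e < s)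
    (hbe : β e = e) (hb : b = y - n + 1) (hy : s ≤ y)
    (hcount : (e + 1) + (b + m - (e + n - 1) + 1) + (y - s + 1) = n)
    (h1 : β b < 0) (h2 : e + n - 1 ≤ b + m) (h3 : y < e + n - 1) :
    x ≤ e ∨ (e + n - 1 ≤ x ∧ x < b + m) ∨ x = β b + m ∨ (s ≤ x ∧ x < y) := by
  have hm := K.hm
  have ht := K.ht
  have htn := K.htn
  have hs := K.hs
  have hx := K.x0
  have hx' := K.xm
  have b1 := K.le b
  obtain ⟨q, hq, hq'⟩ := tri K.F (K.upWalk he hbe) K.no (by omega) (e + n - 1) (b + m)
    (e + n - 1) (b + m) (β e) y s s y (β b + m) 0 0 (K.colC e)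
    ((K.colC b).shift1 K.F (by omega) (by omega) (by omega))
    (by omega) (by omega) (by omega) (by omega) (by omega) (by omega) (by omega) (by omega)
    (by omega)
  rcases K.cases hq (by omega) (by omega) with h | h | h <;> omega

/-- family `α_e` -/
theorem Kill.alphaUp (K : Kill c n t m v β s x) {e d : ℤ} (he : 0 ≤ e) (hes : e < s)
    (hbe : β e = e) (hd : s ≤ d)
    (hcount : (e + 1) + (d - e + 1) + (d - s + 1) = n)
    (h1 : β d < e + n - 1) (h2 : d + n - 1 < m) :
    x ≤ e ∨ (e + n - 1 ≤ x ∧ x < d + n - 1) ∨ x = β d ∨ (s ≤ x ∧ x < d) := by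
  have hm := K.hm
  have ht := K.ht
  have htn := K.htn
  have hs := K.hs
  have hx := K.x0
  have hx' := K.xm
  have b1 := K.le d
  obtain ⟨q, hq, hq'⟩ := tri K.F (K.upWalk he hbe) K.no (by omega) (e + n - 1) (d + n - 1)
    (e + n - 1) (d + n - 1) (β e) d s s d (β d) 0 0 (K.colC e) (K.colC d).symm
    (by omega) (by omega) (by omega) (by omega) (by omega) (by omega) (by omega) (by omega)
    (by omega)
  rcases K.cases hq (by omega) (by omega) with h | h | h <;> omega

/-- family `Z` (also `O`, `Sk`): down-walk to `a`, `C_a`, up to `q`, jump to `q + t - 1`, down to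
`d + n - 1`, `C_d` down to `d`, then to `s` (down if `d ≥ s`, up if `d ≤ s`). -/
theorem Kill.zeta (K : Kill c n t m v β s x) {a k q d : ℤ} (W : Wk c v a 0 a 0 (β a) 0 a k)
    (ha : a ≤ 0) (hd : 1 ≤ d) (hda : d < a + n - 1) (hsa : s < a + n - 1)
    (hq1 : a + n - 1 ≤ q) (hq2 : q < d + n - 1) (hq3 : d + n - 1 ≤ q + t - 1)
    (hcount : k + (q - (a + n - 1) + 1) + (q + t - 1 - (d + n - 1) + 1) +
      (max d s - min d s + 1) = n)
    (h1 : β (q + t - 1 - m) < a) (h2 : β d < a + n - 1) (h3 : s ≤ d ∨ s ≤ β d)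
    (h4 : q + t - 1 < a + m) :
    a + m ≤ x ∨ x = 0 ∨ (a + n - 1 ≤ x ∧ x < q) ∨ x = β (q + t - 1 - m) + m ∨
      (d + n - 1 ≤ x ∧ x < q + t - 1) ∨ x = β d ∨ (s ≤ x ∧ x < d) ∨ (d ≤ x ∧ x < s) := by
  have hm := K.hm
  have ht := K.ht
  have htn := K.htn
  have hs := K.hs
  have hx := K.x0
  have hx' := K.xm
  have b1 := K.le d
  have b2 := K.le a
  have b3 := K.mono ha
  have e0 := K.e0
  have b4 := K.le (q + t - 1 - m)
  rw [e0] at b3
  have cH := (K.colH (q + t - 1 - m)).shift1 K.F (x' := q) (y' := q + t - 1)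
    (g' := β (q + t - 1 - m) + m) (by omega) (by omega) (by omega)
  rcases le_total s d with hsd | hsd
  · obtain ⟨q', hq, hq'⟩ := quad K.F W K.no (by omega) (a + n - 1) q (a + n - 1) q (β a)
      (q + t - 1) (d + n - 1) (d + n - 1) (q + t - 1) (β (q + t - 1 - m) + m)
      d s s d (β d) a a (K.colC a) cH (K.colC d).symm
      (by omega) (by omega) (by omega) (by omega) (by omega) (by omega) (by omega) (by omega)
      (by omega) (by omega) (by omega)
    rcases K.cases hq (by omega) (by omega) with h | h | h <;> omega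
  · obtain ⟨q', hq, hq'⟩ := quad K.F W K.no (by omega) (a + n - 1) q (a + n - 1) q (β a)
      (q + t - 1) (d + n - 1) (d + n - 1) (q + t - 1) (β (q + t - 1 - m) + m)
      d s d s (β d) a a (K.colC a) cH (K.colC d).symm
      (by omega) (by omega) (by omega) (by omega) (by omega) (by omega) (by omega) (by omega)
      (by omega) (by omega) (by omega)
    rcases K.cases hq (by omega) (by omega) with h | h | h <;> omega

/-- the long way round: `x ≥ s` -/
theorem Kill.long (K : Kill c n t m v β s x) (h2 : 2 ≤ s) (ht : s ≤ t) (hodd : s % 2 = 1) :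
    s ≤ x := by
  have hm := K.hm
  have hte := K.hte
  have ht := K.ht
  have htn := K.htn
  have hx := K.x0
  have hx' := K.xm
  obtain ⟨L, hL1, hL2, hL3⟩ := K.toBase.absent (L := m - s + 1) (Or.inr (by omega))
  have hsm := K.hsm
  have W := Wk.arc (c := c) (v := v) (x := m) (y := s) (l := s) (r := m) (z := m)
    (Or.inr ⟨rfl, rfl⟩) (by omega) (by omega)
  obtain ⟨q, hq, hq'⟩ := uno K.F W hL3 hL2 (by omega) (by omega) (by omega)
  rcases K.cases (q := q) (hq.shift1 K.F (by omega) (by omega) (by omega)) (by omega) (by omega)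
    with h | h | h <;> omega

end Pool.Agent.helper64.RE
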