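import Mathlib
import Pool.Agent.helper64.RE.Near

set_option autoImplicit false

/-! # All blocks are small (adapted from `Pool.Agent.helper94.RB.AA`) -/

namespace Pool.Agent.helper64.RE

open Pool.Agent.helper94.Rainbow Pool.Agent.helper94.RainbowTwice Pool.Agent.helper94.RB

variable {V C : Type} {c : Sym2 V → C} {n t m : ℕ} {v : ℤ → V} {β : ℤ → ℤ}

/-- the least position reached from `w` by up-walks with `j` jumps -/
def hI (β : ℤ → ℤ) (t : ℕ) : ℕ → ℤ → ℤ
  | 0, w => w
  | (j + 1), w => max (β (hI β t j w) + 1) (hI β t j w + t - 1)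

/-- the largest position reached from `w` by up-walks with `j` jumps -/
def QI (β : ℤ → ℤ) (t : ℕ) : ℕ → ℤ → ℤ
  | 0, w => β w
  | (j + 1), w => β (QI β t j w + t - 1)

theorem QI_end (N : Near c n t m v β) (j : ℕ) (w : ℤ) : β (QI β t j w) = QI β t j w := by
  cases j with
  | zero => exact N.idem w
  | succ j => exact N.idem _

theorem hI_le_QI (N : Near c n t m v β) (j : ℕ) (w : ℤ) : hI β t j w ≤ QI β t j w := by
  have ht := N.ht
  induction j with
  | zero => exact N.le w
  | succ j ih =>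
    have h1 := N.mono ih
    rw [QI_end N] at h1
    have h2 := N.le (QI β t j w + t - 1)
    show max (β (hI β t j w) + 1) (hI β t j w + t - 1) ≤ β (QI β t j w + t - 1)
    exact max_le (by omega) (by omega)

theorem QI_mono (N : Near c n t m v β) (j : ℕ) {w w' : ℤ} (h : w ≤ w') :
    QI β t j w ≤ QI β t j w' := by
  induction j with
  | zero => exact N.mono h
  | succ j ih => exact N.mono (by omega)

theorem le_QI (N : Near c n t m v β) (j : ℕ) (w : ℤ) : w ≤ QI β t j w := by
  have ht := N.ht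
  induction j with
  | zero => exact N.le w
  | succ j ih =>
    have h2 := N.le (QI β t j w + t - 1)
    show w ≤ β (QI β t j w + t - 1)
    omega

theorem QI_ge (N : Near c n t m v β) (j : ℕ) (w : ℤ) :
    β (w + (j : ℤ) * (t - 1)) ≤ QI β t j w := by
  induction j with
  | zero => simp [QI]
  | succ j ih =>
    have h1 := N.le (w + (j : ℤ) * (t - 1))
    have e : w + ((j + 1 : ℕ) : ℤ) * (t - 1) = w + (j : ℤ) * (t - 1) + t - 1 := by
      push_cast; ring
    rw [e]
    exact N.mono (by omega)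

theorem hI_per (N : Near c n t m v β) (j : ℕ) (w : ℤ) :
    hI β t j (w + m) = hI β t j w + m := by
  induction j with
  | zero => rfl
  | succ j ih =>
    show max (β (hI β t j (w + m)) + 1) (hI β t j (w + m) + t - 1) =
      max (β (hI β t j w) + 1) (hI β t j w + t - 1) + m
    rw [ih, N.per]
    omega

theorem hI_per_mul (N : Near c n t m v β) (j : ℕ) (w : ℤ) (k : ℕ) :
    hI β t j (w + m * k) = hI β t j w + m * k := by
  induction k with
  | zero => simp
  | succ k ih =>
    have e : w + (m : ℤ) * ((k + 1 : ℕ) : ℤ) = w + m * k + m := by push_cast; ring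
    rw [e, hI_per N, ih]
    push_cast
    ring

/-- up-walks -/
theorem upW (N : Near c n t m v β) {S : ℤ} (hS : ∀ x, β x ≤ x + S) (w : ℤ) (j : ℕ) :
    ∀ z, hI β t j w ≤ z → z ≤ QI β t j w →
      w ≤ z ∧ Wk c v w z w (β z) (β w) w z (z - w - (j : ℤ) * (t - 2) + 1) := by
  have ht := N.ht
  induction j with
  | zero =>
    intro z h1 h2
    have h1' : w ≤ z := h1
    have h2' : z ≤ β w := h2
    have hz : β z = β w := N.blk w z h1' h2'
    have W := Wk.arc (c := c) (v := v) (x := w) (y := z) (l := w) (r := z) (z := β w)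
      (Or.inl ⟨rfl, rfl⟩) h1' (Or.inr h2')
    have W' := W.mono (B := w) (B' := z) (D := w) (D' := β z) (z' := β w) le_rfl le_rfl le_rfl
      (by omega) (Or.inl rfl)
    refine ⟨h1', ?_⟩
    rw [show z - w - ((0 : ℕ) : ℤ) * (t - 2) + 1 = z - w + 1 by simp]
    exact W'
  | succ j ih =>
    intro z h1 h2
    have h1' : max (β (hI β t j w) + 1) (hI β t j w + t - 1) ≤ z := h1
    have h2' : z ≤ β (QI β t j w + t - 1) := h2
    rw [max_le_iff] at h1'
    obtain ⟨h3, h4⟩ := h1'
    have hAB := hI_le_QI N j w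
    have hBe := QI_end N j w
    set A := hI β t j w with hA
    set B := QI β t j w with hB
    obtain ⟨y, hy1, hy2, hy3, hy4, hy5⟩ : ∃ y : ℤ, A ≤ y ∧ y ≤ B ∧ y + t - 1 ≤ z ∧
        z ≤ β (y + t - 1) ∧ β y < y + t - 1 := by
      by_cases c1 : B < z - t + 1
      · exact ⟨B, hAB, le_rfl, by omega, h2', by omega⟩
      · by_cases c2 : β (z - t + 1) < z
        · refine ⟨z - t + 1, by omega, by omega, by omega, ?_, by omega⟩
          rw [show z - t + 1 + t - 1 = z by ring]
          exact N.le z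
        · obtain ⟨δ, d1, d2, d3, -⟩ := N.exists_start hS (z - t + 1)
          have d4 : A < δ := by
            by_contra hcon
            have h5 := N.blk δ A (by omega) (by rw [d2]; omega)
            omega
          have h6 : β (δ + t - 2) = β δ := N.blk δ (δ + t - 2) (by omega) (by rw [d2]; omega)
          refine ⟨δ - 1, by omega, by omega, by omega, ?_, by omega⟩
          rw [show δ - 1 + t - 1 = δ + t - 2 by ring, h6, d2]
          omega
    obtain ⟨hwy, W⟩ := ih y hy1 hy2
    have hzq : β z = β (y + t - 1) := N.blk (y + t - 1) z hy3 hy4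
    have hwy' := N.mono hwy
    have hq := N.le (y + t - 1)
    have W2 := Wk.arc (c := c) (v := v) (x := y + t - 1) (y := z) (l := y + t - 1) (r := z)
      (z := β (y + t - 1)) (Or.inl ⟨rfl, rfl⟩) hy3 (Or.inr hy4)
    have hcol := N.colH (y + t - 1)
    rw [show y + (t : ℤ) - 1 - t + 1 = y by ring] at hcol
    have hyle := N.le y
    have W3 := W.join W2 (β (y + t - 1)) hcol w z w (β z) (β w) (by omega) (by omega) (by omega)
      (by omega) (by omega) (by omega) (by omega)
    refine ⟨by omega, ?_⟩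
    have e : z - w - ((j + 1 : ℕ) : ℤ) * (t - 2) + 1 =
        y - w - (j : ℤ) * (t - 2) + 1 + (z - (y + t - 1) + 1) := by
      push_cast
      ring
    rw [e]
    exact W3

/-- the `n`-cycle: the position `w + N_{l+1}` is not reached with `2 (l + 1)` jumps -/
theorem aa_cycle (N : Near c n t m v β) {N0 M R : ℤ} (hN0 : 2 * N0 + t = n)
    (hM : ∀ x, β x - x + 1 ≤ M) (hM1 : 1 ≤ M) (hR : 0 ≤ R) (hRM : N0 + R + M ≤ n - 2) {w : ℤ}
    (hk : 1 ≤ N0)
    (W : Wk c v w (w + (N0 + R)) w (β (w + (N0 + R))) (β w) w (w + (N0 + R)) (N0 - R + 1)) :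
    False := by
  have hm := N.hm
  have ht := N.ht
  have htn := N.htn
  set Y := w + (N0 + R) with hY
  have h1 := hM Y
  have h2 := hM (Y - n + 1)
  have h3 := hM w
  have h4 := N.le (Y - n + 1)
  have h5 := N.le Y
  have h6 := N.le w
  have cb : Col c v Y (Y + n - 3 + t) (β (Y - n + 1) + m) := by
    have := (N.colC (Y - n + 1)).symm
    exact this.shift1 N.F (by omega) (by omega) (by omega)
  obtain ⟨q, hq, hq'⟩ := duo N.F W N.no (by omega) (Y + n - 3 + t) (w + n - 1) (w + n - 1)
    (Y + n - 3 + t) (β (Y - n + 1) + m) w w cb (by omega) (by omega) (by omega) (by omega)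
    (by omega) (by omega) (by omega)
  have hu := Col.uniq_window N.F (N.colC w) hq.symm (B := w) (by omega) (by omega) (by omega)
    (by omega)
  omega

theorem aa_above (N : Near c n t m v β) {N0 : ℤ} (hN0 : 2 * N0 + t = n)
    (hb : ∀ x, β x - x + 1 ≤ N0) (l : ℕ) (hl : (l : ℤ) * t ≤ N0) :
    ∀ w, QI β t (2 * l) w < w + N0 + l * (t - 2) := by
  have hm := N.hm
  have ht := N.ht
  have htn := N.htn
  have hS : ∀ x, β x ≤ x + n := fun x => by
    have := hb x
    omega
  induction l with
  | zero =>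
    intro w
    have h1 := hb w
    show β w < w + N0 + ((0 : ℕ) : ℤ) * (t - 2)
    simp only [Nat.cast_zero, zero_mul, add_zero]
    omega
  | succ l ih =>
    have el : ((l + 1 : ℕ) : ℤ) * t = (l : ℤ) * t + t := by push_cast; ring
    rw [el] at hl
    obtain ⟨P, hP⟩ : ∃ P : ℤ, P = (l : ℤ) * t := ⟨_, rfl⟩
    have ab := ih (by omega)
    have e2 : (l : ℤ) * (t - 2) = P - 2 * l := by rw [hP]; ring
    have e3 : ((l + 1 : ℕ) : ℤ) * (t - 2) = P - 2 * l + (t - 2) := by rw [hP]; push_cast; ring
    have el0 : (0 : ℤ) ≤ l := Int.natCast_nonneg l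
    rw [e2] at ab
    rw [e3]
    rw [← hP] at hl
    have hP0 : 0 ≤ P := by rw [hP]; positivity
    have hPl : 2 * (l : ℤ) ≤ P := by rw [hP]; nlinarith
    -- sizes
    have hM : ∀ x, β x - x + 1 ≤ N0 - P := by
      intro x
      have h1 := QI_ge N (2 * l) (x - 2 * l * (t - 1))
      have h2 := ab (x - 2 * l * (t - 1))
      have e4 : x - 2 * (l : ℤ) * (t - 1) + ((2 * l : ℕ) : ℤ) * (t - 1) = x := by
        push_cast; ring
      have e5 : 2 * (l : ℤ) * (t - 1) = 2 * P - 2 * l := by rw [hP]; ring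
      rw [e4] at h1
      rw [e5] at h1 h2
      omega
    -- not reached
    have hnot : ∀ w, ¬ (hI β t (2 * l + 2) w ≤ w + N0 + (P - 2 * l + (t - 2)) ∧
        w + N0 + (P - 2 * l + (t - 2)) ≤ QI β t (2 * l + 2) w) := by
      rintro w ⟨h1, h2⟩
      obtain ⟨h3, W⟩ := upW N hS w (2 * l + 2) _ h1 h2
      refine aa_cycle N (N0 := N0) (M := N0 - P) (R := P - 2 * l + (t - 2)) hN0 hM (by omega)
        (by omega) (by omega) (w := w) (by omega) ?_
      have e6 : w + N0 + (P - 2 * l + (t - 2)) - w - ((2 * l + 2 : ℕ) : ℤ) * (t - 2) + 1 =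
          N0 - (P - 2 * l + (t - 2)) + 1 := by
        rw [hP]; push_cast; ring
      rw [e6] at W
      rw [← add_assoc]
      exact W
    by_contra hcon
    push Not at hcon
    obtain ⟨w1, hw1⟩ := hcon
    -- below at w1
    have b1 : w1 + N0 + (P - 2 * l + (t - 2)) < hI β t (2 * l + 2) w1 := by
      by_contra h
      exact hnot w1 ⟨not_lt.1 h, hw1⟩
    have bstep : ∀ w, w + N0 + (P - 2 * l + (t - 2)) < hI β t (2 * l + 2) w →
        w + 1 + N0 + (P - 2 * l + (t - 2)) < hI β t (2 * l + 2) (w + 1) := by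
      intro w hw
      by_contra h
      have h1 := hnot (w + 1)
      have h2 := QI_mono N (2 * l + 2) (show w ≤ w + 1 by omega)
      have h3 := hI_le_QI N (2 * l + 2) w
      exact h1 ⟨not_lt.1 h, by omega⟩
    have bn : ∀ k : ℕ, w1 + k + N0 + (P - 2 * l + (t - 2)) < hI β t (2 * l + 2) (w1 + k) := by
      intro k
      induction k with
      | zero => simpa using b1
      | succ k ih' =>
        have := bstep _ ih'
        have e7 : w1 + ((k + 1 : ℕ) : ℤ) = w1 + k + 1 := by push_cast; ring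
        rw [e7]
        exact this
    have ball : ∀ w, w + N0 + (P - 2 * l + (t - 2)) < hI β t (2 * l + 2) w := by
      intro w
      obtain ⟨k, hk⟩ : ∃ k : ℕ, w1 ≤ w + m * k := by
        refine ⟨(w1 - w).toNat, ?_⟩
        have hm1 : (1 : ℤ) ≤ m := by omega
        have : (w1 - w) ≤ (w1 - w).toNat := Int.self_le_toNat _
        nlinarith [Int.natCast_nonneg (w1 - w).toNat]
      have h1 := bn (w + m * k - w1).toNat
      rw [Int.toNat_of_nonneg (by omega), show w1 + (w + m * k - w1) = w + m * k by ring,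
        hI_per_mul N] at h1
      omega
    -- all blocks have size at most t - 1
    have hsz : ∀ x, β x - x + 1 ≤ t - 1 := by
      intro x
      by_contra hx
      obtain ⟨δ, d1, d2, d3, -⟩ := N.exists_start hS x
      set ε := β x with hε
      have hbig : (t : ℤ) ≤ ε - δ + 1 := by omega
      obtain ⟨w0, hw0, hw0'⟩ := Int.exists_least_of_bdd (P := fun w => ε ≤ QI β t (2 * l) w)
        ⟨ε - (N0 + (P - 2 * l)), fun w hw => by have := ab w; omega⟩ ⟨ε, le_QI N _ _⟩
      have he0 : QI β t (2 * l) (w0 - 1) < ε := by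
        by_contra h
        have := hw0' (w0 - 1) (not_lt.1 h)
        omega
      have he1 : QI β t (2 * l) (w0 - 1) ≤ δ - 1 := by
        by_contra h
        have h1 := N.blk δ (QI β t (2 * l) (w0 - 1)) (by omega) (by rw [d2]; omega)
        rw [QI_end N, d2] at h1
        omega
      have h1 := hI_le_QI N (2 * l) (w0 - 1)
      have h2 := N.mono h1
      rw [QI_end N] at h2
      have h3 : hI β t (2 * l + 1) (w0 - 1) ≤ δ + t - 2 := by
        show max (β (hI β t (2 * l) (w0 - 1)) + 1) (hI β t (2 * l) (w0 - 1) + t - 1) ≤ _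
        exact max_le (by omega) (by omega)
      have h4 : β (δ + t - 2) = ε := by
        rw [N.blk δ (δ + t - 2) (by omega) (by rw [d2]; omega), d2]
      have h5 : hI β t (2 * l + 2) (w0 - 1) ≤ max (ε + 1) (δ + 2 * t - 3) := by
        show max (β (hI β t (2 * l + 1) (w0 - 1)) + 1) (hI β t (2 * l + 1) (w0 - 1) + t - 1) ≤ _
        have h6 := N.mono h3
        rw [h4] at h6
        refine max_le (le_max_of_le_left (by omega)) (le_max_of_le_right (by omega))
      have h6 := ball (w0 - 1)
      have h7 := ab w0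
      rcases max_cases (ε + 1) (δ + 2 * t - 3) with ⟨h8, -⟩ | ⟨h8, -⟩ <;> omega
    -- then h^j w = w + j (t - 1)
    have hlin : ∀ (j : ℕ) (w : ℤ), hI β t j w = w + j * (t - 1) := by
      intro j w
      induction j with
      | zero => simp [hI]
      | succ j ih' =>
        show max (β (hI β t j w) + 1) (hI β t j w + t - 1) = _
        have h1 := hsz (hI β t j w)
        rw [max_eq_right (by omega), ih']
        push_cast
        ring
    have h1 := ball 0
    rw [hlin] at h1
    have e8 : (0 : ℤ) + ((2 * l + 2 : ℕ) : ℤ) * (t - 1) = 2 * P - 2 * l + 2 * (t - 1) := by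
      rw [hP]; push_cast; ring
    rw [e8] at h1
    omega

theorem aa (N : Near c n t m v β) (hb : ∀ x, 2 * (β x - x) + 2 + t ≤ n) (l : ℕ)
    (hl : 2 * l * t + t ≤ n) : ∀ x, 2 * (β x - x + 1) + 2 * l * t + t ≤ n := by
  intro x
  have hte := N.hte
  have hne := N.hn
  have ht3 := N.ht
  obtain ⟨N0, hN0⟩ : ∃ N0 : ℤ, N0 = ((n : ℤ) - t) / 2 := ⟨_, rfl⟩
  have hN : 2 * N0 + t = n := by omega
  have hb2 : ∀ x, β x - x + 1 ≤ N0 := fun x => by
    have := hb x
    omega
  obtain ⟨P, hP⟩ : ∃ P : ℤ, P = (l : ℤ) * t := ⟨_, rfl⟩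
  have hl' : 2 * P + t ≤ n := by
    have : ((2 * l * t + t : ℕ) : ℤ) ≤ n := by exact_mod_cast hl
    rw [hP]
    push_cast at this
    linarith
  have ab := aa_above N hN hb2 l (by rw [← hP]; omega)
  have h1 := QI_ge N (2 * l) (x - 2 * l * (t - 1))
  have h2 := ab (x - 2 * l * (t - 1))
  have e4 : x - 2 * (l : ℤ) * (t - 1) + ((2 * l : ℕ) : ℤ) * (t - 1) = x := by
    push_cast; ring
  have e5 : 2 * (l : ℤ) * (t - 1) = 2 * P - 2 * l := by rw [hP]; ring
  have e6 : (l : ℤ) * (t - 2) = P - 2 * l := by rw [hP]; ring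
  have e7 : 2 * (l : ℤ) * t = 2 * P := by rw [hP]; ring
  rw [e4] at h1
  rw [e5] at h1 h2
  rw [e6] at h2
  rw [e7]
  omega

end Pool.Agent.helper64.RE
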