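import Mathlib
import Pool.Agent.helper64.RE.Near
import Pool.Agent.helper64.RE.Fact1

set_option autoImplicit false

/-! # The near dichotomy (adapted from `Pool.Agent.helper94.RB.NearOdd`) -/

namespace Pool.Agent.helper64.RE

open Pool.Agent.helper94.Rainbow Pool.Agent.helper94.RainbowTwice Pool.Agent.helper94.RB

variable {V C : Type} {c : Sym2 V → C} {n t m : ℕ} {v : ℤ → V} {cc hh : ℤ → ℤ}

/-- periodicity of the labels -/
theorem Lbl.ocper_nat (L : Lbl c n t m v cc hh) (x : ℤ) (k : ℕ) :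
    cc (x + k * m) = cc x + k * m := by
  induction k with
  | zero => simp
  | succ k ih =>
    have h1 := L.cper (x + k * m)
    rw [ih] at h1
    rw [show x + ((k + 1 : ℕ) : ℤ) * m = x + k * m + m by push_cast; ring, h1]
    push_cast; ring

theorem Lbl.ocper_int (L : Lbl c n t m v cc hh) (x k : ℤ) :
    cc (x + k * m) = cc x + k * m := by
  rcases le_total 0 k with h | h
  · have := L.ocper_nat x k.toNat
    rw [show ((k.toNat : ℕ) : ℤ) = k by omega] at this
    exact this
  · have := L.ocper_nat (x + k * m) (-k).toNat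
    rw [show (((-k).toNat : ℕ) : ℤ) = -k by omega] at this
    rw [show x + k * (m : ℤ) + -k * m = x by ring] at this
    rw [this]; ring

/-- the facts about low points -/
theorem Lbl.olow_iter (L : Lbl c n t m v cc hh) {X X' : ℤ} (hX : 2 * X = n - 2 + t)
    (hX' : 2 * X' = n - 2 - t) {i : ℤ} (hi : cc i - i < X) (k : ℕ) :
    cc (i + (k + 1 : ℕ) * X) - (i + (k + 1 : ℕ) * X) ≤ X' := by
  have hm := L.hm
  have ht := L.ht
  have htn := L.htn
  induction k with
  | zero =>
    have h1 := L.CC i X (by omega) (by omega) (Or.inl (by omega))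
    rw [show i + ((0 + 1 : ℕ) : ℤ) * X = i + X by push_cast; ring]
    omega
  | succ k ih =>
    have h1 := L.CC (i + (k + 1 : ℕ) * X) X (by omega) (by omega) (Or.inl (by omega))
    rw [show i + ((k + 1 + 1 : ℕ) : ℤ) * X = i + (k + 1 : ℕ) * X + X by push_cast; ring]
    omega

theorem Lbl.olow_self (L : Lbl c n t m v cc hh) {X X' : ℤ} (hX : 2 * X = n - 2 + t)
    (hX' : 2 * X' = n - 2 - t) {i : ℤ} (hi : cc i - i < X) : cc i - i ≤ X' := by
  have hm := L.hm
  have ht := L.ht
  have htn := L.htn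
  obtain ⟨k, hk⟩ : ∃ k : ℕ, m = k + 1 := ⟨m - 1, by omega⟩
  have h1 := L.olow_iter hX hX' hi k
  rw [← hk] at h1
  have h2 := L.ocper_int i X
  rw [show i + (m : ℤ) * X = i + X * m by ring, h2] at h1
  linarith

theorem Lbl.olow_next (L : Lbl c n t m v cc hh) {X X' : ℤ} (hX : 2 * X = n - 2 + t)
    (hX' : 2 * X' = n - 2 - t) {i : ℤ} (hi : cc i - i < X) :
    cc (i + n - 2) - (i + n - 2) < X := by
  have hm := L.hm
  have ht := L.ht
  have htn := L.htn
  obtain ⟨k, hk⟩ : ∃ k : ℕ, m = k + 3 := ⟨m - 3, by omega⟩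
  have h1 := L.olow_iter hX hX' hi k
  have e1 : i + ((k + 1 : ℕ) : ℤ) * X = i + n - 2 + (X - 1) * m := by
    have : (n : ℤ) - 2 = m - 2 * X := by omega
    have hk' : (m : ℤ) = k + 3 := by exact_mod_cast hk
    rw [show i + (n : ℤ) - 2 = i + (m - 2 * X) by linarith, hk']
    push_cast
    ring
  rw [e1, L.ocper_int] at h1
  have : cc (i + n - 2) - (i + n - 2) ≤ X' := by linarith
  omega

/-- a near type point -/
theorem Lbl.ontype (L : Lbl c n t m v cc hh) {X X' : ℤ} (hX : 2 * X = n - 2 + t)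
    (hX' : 2 * X' = n - 2 - t) {p : ℤ} (hp : hh p ≤ p + n - 2) :
    ∀ i, p ≤ i → i ≤ hh p → cc i = hh p ∧ cc i - i ≤ X' := by
  have hm := L.hm
  have ht := L.ht
  have htn := L.htn
  have hrun : ∀ i, p ≤ i → i ≤ hh p → cc i = hh p := fun i h1 h2 =>
    L.fact1 h1 (by omega) h2 (by omega)
  have hpx : hh p - p ≤ X' := by
    by_contra hcon
    have h1 := hrun (hh p - (X' + 1)) (by omega) (by omega)
    have h2 := L.olow_self hX hX' (i := hh p - (X' + 1)) (by omega)
    omega
  intro i h1 h2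
  have := hrun i h1 h2
  exact ⟨this, by omega⟩

/-- a far type point -/
theorem Lbl.oftype (L : Lbl c n t m v cc hh) {X X' : ℤ} (hX : 2 * X = n - 2 + t)
    (hX' : 2 * X' = n - 2 - t) {p : ℤ} (hp : p + n - 1 ≤ hh p) :
    ∀ i, hh p - n + 2 ≤ i → i ≤ p + n - 2 → cc i = hh p ∧ X ≤ cc i - i := by
  have hm := L.hm
  have ht := L.ht
  have htn := L.htn
  have hhi := L.hhi p
  have hrun : ∀ i, hh p - n + 2 ≤ i → i ≤ p + n - 2 → cc i = hh p := fun i h1 h2 =>
    L.fact1 (by omega) (by omega) (by omega) (by omega)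
  intro i h1 h2
  have h3 := hrun i h1 h2
  refine ⟨h3, ?_⟩
  by_contra hcon
  have h4 := L.olow_self hX hX' (i := i) (by omega)
  have h5 := hrun (hh p - (X' + 1)) (by omega) (by omega)
  have h6 := L.olow_self hX hX' (i := hh p - (X' + 1)) (by omega)
  omega

/-- far type points are not low -/
theorem Lbl.oftype_not_low (L : Lbl c n t m v cc hh) {X X' : ℤ} (hX : 2 * X = n - 2 + t)
    (hX' : 2 * X' = n - 2 - t) {p : ℤ} (hp : p + n - 1 ≤ hh p) : X ≤ cc p - p := by
  have ht := L.ht
  have htn := L.htn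
  have hhi := L.hhi p
  by_contra hcon
  have h1 := L.olow_next hX hX' (i := p) (by omega)
  have h2 := (L.oftype hX hX' hp (p + n - 2) (by omega) le_rfl).2
  omega

/-- the main step of the mixed case -/
theorem Lbl.omixed (L : Lbl c n t m v cc hh) {X X' : ℤ} (hX : 2 * X = n - 2 + t)
    (hX' : 2 * X' = n - 2 - t) {b : ℤ} (h1 : cc b - b < X) (h2 : X ≤ cc (b + 1) - (b + 1)) :
    cc b = b ∧ X ≤ cc (b - 1) - (b - 1) ∧ cc (b + 2) - (b + 2) < X := by
  have hte := L.hte
  have hm := L.hm
  have ht := L.ht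
  have htn := L.htn
  have hb : hh b ≤ b + n - 2 := by
    by_contra hcon
    have := L.oftype_not_low hX hX' (p := b) (by omega)
    omega
  have hN := L.ontype hX hX' hb
  have hhb := L.hlo b
  have hbb : hh b = b := by
    by_contra hne
    have := (hN (b + 1) (by omega) (by omega)).2
    omega
  have hcb : cc b = b := by
    have := (hN b le_rfl hhb).1
    omega
  -- the point `b + 1`
  have hq : cc (b + 1) - (b + 1) = n - 2 := by
    obtain ⟨p, hp⟩ : ∃ p, p = b + 1 - (n - 2 : ℤ) := ⟨_, rfl⟩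
    have hpl : X ≤ cc p - p := by
      by_contra hcon
      have := L.olow_next hX hX' (i := p) (by omega)
      rw [show p + (n : ℤ) - 2 = b + 1 by omega] at this
      omega
    have hpf : p + n - 1 ≤ hh p := by
      by_contra hcon
      have := (L.ontype hX hX' (p := p) (by omega) p le_rfl (L.hlo p)).2
      omega
    have hF := L.oftype hX hX' hpf
    have h3 := L.hhi p
    have h4 : b + 1 ≤ hh p - n + 2 := by
      by_contra hcon
      have := (hF b (by omega) (by omega)).2
      omega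
    have h5 := (hF (b + 1) (by omega) (by omega)).1
    omega
  have h3 := L.CC (b - 1) 2 (by omega) (by omega) (Or.inr (by omega))
  have h4 := L.CC b 2 (by omega) (by omega) (Or.inr (by omega))
  rw [show b - 1 + 2 = b + 1 by ring] at h3
  refine ⟨hcb, ?_, ?_⟩
  · by_contra hcon
    have hbf : hh (b - 1) ≤ b - 1 + n - 2 := by
      by_contra hcon2
      have := L.oftype_not_low hX hX' (p := b - 1) (by omega)
      omega
    have hN' := L.ontype hX hX' hbf
    have h5 : hh (b - 1) ≤ b := by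
      by_contra hcon2
      have := (hN' (b + 1) (by omega) (by omega)).2
      omega
    have h6 := (hN' (b - 1) le_rfl (L.hlo _)).1
    omega
  · by_contra hcon
    obtain ⟨p, hp⟩ : ∃ p, p = b + 2 - (n - 2 : ℤ) := ⟨_, rfl⟩
    have hpl : X ≤ cc p - p := by
      by_contra hcon
      have := L.olow_next hX hX' (i := p) (by omega)
      rw [show p + (n : ℤ) - 2 = b + 2 by omega] at this
      omega
    have hpf : p + n - 1 ≤ hh p := by
      by_contra hcon
      have := (L.ontype hX hX' (p := p) (by omega) p le_rfl (L.hlo p)).2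
      omega
    have hF := L.oftype hX hX' hpf
    have h3 := L.hhi p
    have h5 : b + 1 ≤ hh p - n + 2 := by
      by_contra hcon
      have := (hF b (by omega) (by omega)).2
      omega
    have h6 := (hF (b + 2) (by omega) (by omega)).1
    omega

/-- going up from a low point to the last low point of its run -/
theorem Lbl.oexists_last (L : Lbl c n t m v cc hh) {X : ℤ} {i j : ℤ} (hi : cc i - i < X)
    (hj : X ≤ cc j - j) : ∃ b, i ≤ b ∧ (∀ z, i ≤ z → z ≤ b → cc z - z < X) ∧
      X ≤ cc (b + 1) - (b + 1) := by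
  have hm := L.hm
  have ht := L.ht
  have htn := L.htn
  have hex : ∃ z, i ≤ z ∧ X ≤ cc z - z := by
    obtain ⟨k, hk⟩ : ∃ k : ℕ, i ≤ j + k * m := by
      refine ⟨(i - j).toNat, ?_⟩
      have h1 : (1 : ℤ) ≤ m := by omega
      have h2 : (i - j) ≤ ((i - j).toNat : ℤ) := Int.self_le_toNat _
      nlinarith [Int.natCast_nonneg (i - j).toNat]
    refine ⟨j + k * m, hk, ?_⟩
    rw [L.ocper_nat]
    omega
  obtain ⟨z0, ⟨h1, h2⟩, h3⟩ := Int.exists_least_of_bdd (P := fun z => i ≤ z ∧ X ≤ cc z - z)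
    ⟨i, fun z hz => hz.1⟩ hex
  have hz : z0 ≠ i := by
    rintro rfl
    omega
  refine ⟨z0 - 1, by omega, ?_, ?_⟩
  · intro z hz1 hz2
    by_contra hcon
    have := h3 z ⟨hz1, by omega⟩
    omega
  · rw [show z0 - 1 + 1 = z0 by ring]
    exact h2

/-- after a possible reflection the chords `C_x` and `H_x` form a near structure, with
all blocks of size at most `(n - t) / 2`. -/
theorem near_dich (N : Base c n t m v) :
    ∃ v' β, Near c n t m v' β ∧ ∀ x, 2 * (β x - x) + 2 + t ≤ n := by
  obtain ⟨cc, hh, L⟩ := exists_lbl N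
  have hm := L.hm
  have ht3 := L.ht
  have htn := L.htn
  have hte := L.hte
  have hne := L.hn
  obtain ⟨u, hu⟩ : ∃ u : ℕ, t = 2 * u := ⟨t / 2, by omega⟩
  obtain ⟨h, hh'⟩ : ∃ h : ℕ, n = 2 * h + 2 := ⟨(n - 2) / 2, by omega⟩
  obtain ⟨X, hX0⟩ : ∃ X : ℤ, X = h + u := ⟨_, rfl⟩
  obtain ⟨X', hX0'⟩ : ∃ X' : ℤ, X' = h - u := ⟨_, rfl⟩
  have hX : 2 * X = n - 2 + t := by omega
  have hX' : 2 * X' = n - 2 - t := by omega
  by_cases hall : ∀ i, cc i - i < X
  · -- all points are low
    refine ⟨v, cc, L.near ?_, ?_⟩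
    · intro p
      by_contra hcon
      have h1 := L.oftype_not_low hX hX' (p := p) (by omega)
      have h2 := hall p
      omega
    · intro x
      have := L.olow_self hX hX' (hall x)
      omega
  by_cases hnone : ∀ i, X ≤ cc i - i
  · -- no point is low
    have hF : ∀ p, p + n - 1 ≤ hh p := by
      intro p
      by_contra hcon
      have h1 := (L.ontype hX hX' (p := p) (by omega) p le_rfl (L.hlo p)).2
      have h2 := hnone p
      omega
    refine ⟨_, _, L.reflect.near ?_, ?_⟩
    · intro p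
      show p + (2 * n - 4) - (hh (-p + t - 1) - (-p + t - 1)) ≤ p + n - 2
      have := hF (-p + t - 1)
      omega
    · intro x
      show 2 * (-1 - cc (-x - n + 1) - x) + 2 + t ≤ n
      have := hnone (-x - n + 1)
      omega
  -- the mixed case
  exfalso
  push Not at hall hnone
  obtain ⟨j, hj⟩ := hall
  obtain ⟨i, hi⟩ := hnone
  obtain ⟨b0, hib, h2, h3⟩ := L.oexists_last hi hj
  have hb0 : cc b0 - b0 < X := h2 b0 hib le_rfl
  -- propagation
  have key : ∀ k : ℕ, cc (b0 + 2 * k) - (b0 + 2 * k) < X ∧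
      X ≤ cc (b0 + 2 * k + 1) - (b0 + 2 * k + 1) := by
    intro k
    induction k with
    | zero => simpa using ⟨hb0, h3⟩
    | succ k ih =>
      obtain ⟨-, -, h6⟩ := L.omixed hX hX' ih.1 ih.2
      obtain ⟨b1, h7, h8, h9⟩ := L.oexists_last h6 hj
      obtain ⟨-, h11, -⟩ := L.omixed hX hX' (h8 b1 h7 le_rfl) h9
      have h12 : b1 = b0 + 2 * k + 2 := by
        by_contra hne
        have := h8 (b1 - 1) (by omega) (by omega)
        omega
      subst h12
      have e : b0 + 2 * ((k + 1 : ℕ) : ℤ) = b0 + 2 * k + 2 := by push_cast; ring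
      rw [e]
      exact ⟨h6, h9⟩
  rcases Nat.mod_two_eq_zero_or_one u with hu2 | hu2
  · -- `X` is odd
    have h4 := L.CC b0 X (by omega) (by omega) (Or.inl (by omega))
    have h5 := (key ((h + u - 1) / 2)).2
    rw [show b0 + 2 * (((h + u - 1) / 2 : ℕ) : ℤ) + 1 = b0 + X by omega] at h5
    omega
  · -- `u` is odd
    have h4 := L.P1 u hu (b0 + u)
    rw [show b0 + (u : ℤ) - u = b0 by ring] at h4
    have h5 := (L.omixed hX hX' hb0 h3).1
    have h6 := (L.ontype hX hX' (p := b0 + u) (by omega) (b0 + u) le_rfl (L.hlo _)).2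
    have h7 := (key ((u - 1) / 2)).2
    rw [show b0 + 2 * (((u - 1) / 2 : ℕ) : ℤ) + 1 = b0 + u by omega] at h7
    omega

end Pool.Agent.helper64.RE
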