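import Mathlib
import Pool.Agent.helper64.RE.Near

set_option autoImplicit false

/-! # All blocks of size at most `t - 1` (adapted from `Pool.Agent.helper94.RB.Small`) -/

namespace Pool.Agent.helper64.RE

open Pool.Agent.helper94.Rainbow Pool.Agent.helper94.RainbowTwice Pool.Agent.helper94.RB

variable {V C : Type} {c : Sym2 V → C} {n t m : ℕ} {v : ℤ → V} {β : ℤ → ℤ} {s x : ℤ}

/-- the down-walk: `i` steps down from `0`, then `j` jumps, to `a = -i - j (t - 1)` -/
theorem dw_small (N : Near c n t m v β) (e0 : β 0 = 0) {S : ℤ} (hS : ∀ x, β x ≤ x + S - 1)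
    (hSt : S ≤ t - 1) (hB : β (-S + 1) = 0) (i : ℤ) (hi : 0 ≤ i) (hi' : i ≤ S - 1) (j : ℕ) :
    Wk c v (-i - j * (t - 1)) 0 (-i - j * (t - 1)) 0 (β (-i - j * (t - 1))) 0 (-i - j * (t - 1))
      (i + j + 1) := by
  induction j with
  | zero =>
    have h0 : β (-i) = 0 := by
      rw [N.blk (-S + 1) (-i) (by omega) (by omega), hB]
    have h := Wk.arc (c := c) (v := v) (x := 0) (y := -i) (l := -i) (r := 0) (z := 0)
      (Or.inr ⟨rfl, rfl⟩) (by omega) (by omega)
    have e1 : -i - ((0 : ℕ) : ℤ) * (t - 1) = -i := by push_cast; ring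
    have e2 : i + ((0 : ℕ) : ℤ) + 1 = 0 - -i + 1 := by push_cast; ring
    rw [e1, e2, h0]
    exact h.mono (by omega) (by omega) (by omega) (by omega) (by omega)
  | succ j ih =>
    set a : ℤ := -i - j * (t - 1) with ha
    have e1 : -i - ((j + 1 : ℕ) : ℤ) * (t - 1) = a - t + 1 := by rw [ha]; push_cast; ring
    have e2 : i + ((j + 1 : ℕ) : ℤ) + 1 = i + j + 1 + 1 := by push_cast; ring
    have ht := N.ht
    have ha0 : a ≤ 0 := by
      have : (0 : ℤ) ≤ j * (t - 1) := by
        apply mul_nonneg <;> omega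
      omega
    have b1 := N.le a
    have b2 := N.mono ha0
    rw [e0] at b2
    have b3 := hS (a - t + 1)
    have b4 := N.le (a - t + 1)
    rw [e1, e2]
    have hc := (N.colH a).symm
    exact ih.join (Wk.single (a - t + 1) (E := 1) (E' := 0) (z := 0)) (β a) hc
      (a - t + 1) 0 (a - t + 1) 0 (β (a - t + 1))
      (by omega) (by omega) (by omega) (by omega) (by omega) (by omega) (by omega)

theorem dw_small' (N : Near c n t m v β) (e0 : β 0 = 0) {S : ℤ} (hS : ∀ x, β x ≤ x + S - 1)
    (hSt : S ≤ t - 1) (hB : β (-S + 1) = 0) (i : ℤ) (hi : 0 ≤ i) (hi' : i ≤ S - 1) (j : ℕ)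
    {a Q : ℤ} (hQ : Q = j * t) (ha : a = -i - Q + j) :
    Wk c v a 0 a 0 (β a) 0 a (i + j + 1) := by
  have h := dw_small N e0 hS hSt hB i hi hi' j
  have e : -i - (j : ℤ) * (t - 1) = a := by rw [ha, hQ]; ring
  rw [e] at h
  exact h

section fam

variable (K : Kill c n t m v β s x) {S : ℤ} (hS : ∀ x, β x ≤ x + S - 1)
    (hSt : S ≤ t - 1) (hB : β (-S + 1) = 0) {P : ℤ} (hl : (n : ℤ) = P + t + s + 1)

include K hS hSt hB hl

/-- family beta(i, j) -/
theorem killB (i : ℤ) (hi : 0 ≤ i) (hi' : i ≤ S - 1) (j : ℕ) {Q r a b : ℤ} (hQ : Q = j * t)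
    (hQj : 3 * j ≤ Q) (hr : 2 * r = P - Q) (hir : i ≤ r) (ha : a = -i - Q + j)
    (hb : b = r - i - P - t) (h1 : β b < a) :
    a + m ≤ x ∨ x = 0 ∨ (a + n - 1 ≤ x ∧ x < b + m) ∨ x = β b + m ∨
      (s ≤ x ∧ x < s + r - i) := by
  have hm := K.hm
  have ht := K.ht
  have hs := K.hs
  have W := dw_small' K.toNear K.e0 hS hSt hB i hi hi' j hQ ha
  exact K.beta W (by omega) (y := s + r - i) (b := b) (by omega) (by omega) (by omega) h1
    (by omega)

/-- family alpha(i, j) -/
theorem killA (i : ℤ) (hi : 0 ≤ i) (hi' : i ≤ S - 1) (j : ℕ) {Q r a d : ℤ} (hQ : Q = j * t)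
    (hQj : 3 * j ≤ Q) (hr : 2 * r = P + t - Q) (ha : a = -i - Q + j)
    (hd : d = s - 1 + r - i) (hds : s ≤ d) (h1 : β d < a + n - 1) (h2 : d + n - 1 < a + m) :
    a + m ≤ x ∨ x = 0 ∨ (a + n - 1 ≤ x ∧ x < d + n - 1) ∨ x = β d ∨ (s ≤ x ∧ x < d) := by
  have hm := K.hm
  have ht := K.ht
  have hs := K.hs
  have W := dw_small' K.toNear K.e0 hS hSt hB i hi hi' j hQ ha
  exact K.alpha W (by omega) hds (by omega) h1 h2

/-- family Z: `x = d + n - 2` -/
theorem killZ (l : ℕ) (hP : P = l * t) (hPl : 3 * l ≤ P) {d : ℤ} (hsd : s ≤ d)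
    (hdt : d ≤ s + t - 2) (hd : β d ≤ t + l + s - 1) (hS1 : 1 ≤ S) : x ≠ d + n - 2 := by
  intro hx
  have hm := K.hm
  have ht := K.ht
  have hs := K.hs
  have W := dw_small' K.toNear K.e0 hS hSt hB 0 le_rfl (by omega) l hP (a := -P + l) (by omega)
  have hb1 := hS (s - n + 1)
  have hb2 := K.le (s - n + 1)
  have hb3 := K.le d
  have e : s + n - 2 + t - 1 - m = s - n + 1 := by omega
  have h := K.zeta W (d := d) (q := s + n - 2) (by omega) (by omega) (by omega) (by omega)
    (by omega) (by omega) (by omega) (by omega) (by rw [e]; omega) (by omega) (by omega)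
    (by omega)
  rw [e] at h
  omega

/-- family O: `x = p + n - 2` -/
theorem killO (l : ℕ) (hP : P = l * t) (hPl : 3 * l ≤ P) {p : ℤ} (hp1 : 1 ≤ p)
    (hps : p ≤ s - 1) (hp : s ≤ β p) (hS1 : 1 ≤ S) : x ≠ p + n - 2 := by
  intro hx
  have hm := K.hm
  have ht := K.ht
  have hs := K.hs
  have W := dw_small' K.toNear K.e0 hS hSt hB 0 le_rfl (by omega) l hP (a := -P + l) (by omega)
  have hb1 := hS (p - n + 1)
  have hb2 := K.le (p - n + 1)
  have hb3 := K.le p
  have hb4 := hS p
  have e : p + n - 2 + t - 1 - m = p - n + 1 := by omega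
  have h := K.zeta W (d := p) (q := p + n - 2) (by omega) (by omega) (by omega) (by omega)
    (by omega) (by omega) (by omega) (by omega) (by rw [e]; omega) (by omega) (by omega)
    (by omega)
  rw [e] at h
  omega

/-- (2a) -/
theorem small2a (l : ℕ) (hP : P = l * t) (hPl : 3 * l ≤ P) (hs2 : 2 ≤ s) (hsx : s ≤ x) :
    ∀ k j : ℕ, j + k = l → (Even t ∨ Even k) → n - 2 - (j : ℤ) * t + j < x := by
  have hm := K.hm
  have ht := K.ht
  intro k
  induction k using Nat.strong_induction_on with
  | _ k ih =>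
    intro j hjk hev
    by_contra hcon
    push Not at hcon
    obtain ⟨Q, hQ⟩ : ∃ Q : ℤ, Q = (j : ℤ) * t := ⟨_, rfl⟩
    rw [← hQ] at hcon
    have hQj : 3 * (j : ℤ) ≤ Q := by
      rw [hQ]
      have : (3 : ℤ) ≤ t := by exact_mod_cast ht
      nlinarith
    have hR : P - Q = k * t := by
      rw [hP, hQ, ← hjk]; push_cast; ring
    have hRe : Even ((k : ℤ) * t) := by
      rcases hev with h | h
      · exact Even.mul_left (by exact_mod_cast h) _
      · exact Even.mul_right (by exact_mod_cast h) _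
    obtain ⟨r, hr⟩ := hRe
    have hr2 : 2 * r = P - Q := by omega
    have hk0 : (0 : ℤ) ≤ (k : ℤ) * t := by positivity
    have hb1 := hS (r - 0 - P - t)
    have hb2 := K.le (r - 0 - P - t)
    have hPQ : Q ≤ P := by omega
    have h := killB K hS hSt hB hl 0 le_rfl (by
      have := hS 0
      rw [K.e0] at this
      omega) j hQ hQj hr2 (by omega) (a := -Q + j) (b := r - 0 - P - t) (by omega) rfl (by omega)
    -- the previous step
    have hprev : s + r ≤ x := by
      rcases Nat.eq_zero_or_pos k with h0 | h0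
      · subst h0
        simp at hr
        omega
      · rcases hev with he | he
        · have h2 := ih (k - 1) (by omega) (j + 1) (by omega) (Or.inl he)
          push_cast at h2
          have h3 : ((j : ℤ) + 1) * t = Q + t := by rw [hQ]; ring
          rw [h3] at h2
          omega
        · have hk2 : 2 ≤ k := by
            rcases he with ⟨q, hq⟩
            omega
          have h2 := ih (k - 2) (by omega) (j + 2) (by omega) (Or.inr (by
            rw [Nat.even_sub hk2]
            simp [he]))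
          push_cast at h2
          have h3 : ((j : ℤ) + 2) * t = Q + 2 * t := by rw [hQ]; ring
          rw [h3] at h2
          have h4 : 2 * (t : ℤ) ≤ (k : ℤ) * t := by
            have : (2 : ℤ) ≤ k := by exact_mod_cast hk2
            nlinarith
          omega
    omega

/-- (2) -/
theorem small2 (l : ℕ) (hP : P = l * t) (hPl : 3 * l ≤ P) (hs2 : 2 ≤ s) (hsx : s ≤ x) :
    (n : ℤ) - 2 < x := by
  have hm := K.hm
  have ht := K.ht
  have hS1 : 1 ≤ S := by
    have := hS 0
    rw [K.e0] at this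
    omega
  rcases Nat.even_or_odd t with he | ho
  · have h := small2a K hS hSt hB hl l hP hPl hs2 hsx l 0 (by omega) (Or.inl he)
    simpa using h
  rcases Nat.even_or_odd l with hle | hlo
  · have h := small2a K hS hSt hB hl l hP hPl hs2 hsx l 0 (by omega) (Or.inr hle)
    simpa using h
  by_contra hcon
  push Not at hcon
  have hl1 : 1 ≤ l := hlo.pos
  have h := small2a K hS hSt hB hl l hP hPl hs2 hsx (l - 1) 1 (by omega) (Or.inr (by
    rw [Nat.even_sub hl1]
    simp [Nat.not_even_iff_odd.2 hlo]))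
  push_cast at h
  rw [one_mul] at h
  have hPt : (t : ℤ) ≤ P := by
    rw [hP]
    have : (1 : ℤ) ≤ l := by exact_mod_cast hl1
    nlinarith
  obtain ⟨r, hr⟩ : ∃ r : ℤ, 2 * r = P + t - 0 := by
    obtain ⟨q, hq⟩ := hlo
    refine ⟨(q + 1) * t, ?_⟩
    rw [hP, hq]
    push_cast
    ring
  -- alpha (0, 0)
  have hb1 := hS (s - 1 + r - 0)
  have hb2 := K.le (s - 1 + r - 0)
  have h1 := killA K hS hSt hB hl 0 le_rfl (by omega) 0 (Q := 0) (by simp) (by simp) hr (a := 0)
    (by simp) (d := s - 1 + r - 0) rfl (by omega) (by omega) (by omega)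
  have hxd : x = β (s - 1 + r - 0) := by omega
  obtain ⟨δ, hδ1, hδ2, hδ3, hδ4⟩ := K.exists_start (S := S - 1) (fun y => by
    have := hS y; omega) (s - 1 + r - 0)
  have h2 := killA K hS hSt hB hl (s - 1 + r - δ + 1) (by omega) (by omega) 0 (Q := 0) (by simp)
    (by simp) hr (a := -(s - 1 + r - δ + 1)) (by simp) (d := δ - 1) (by omega) (by omega)
    (by rw [hδ3]; omega) (by omega)
  rw [hδ3] at h2
  omega

/-- (3) -/
theorem small3 (l : ℕ) (hP : P = l * t) (hPl : 3 * l ≤ P) (hs2 : 2 ≤ s) (hst : s ≤ t)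
    (hx : (n : ℤ) - 2 < x) : (n : ℤ) + s - 3 < x := by
  have hm := K.hm
  have ht := K.ht
  have hS1 : 1 ≤ S := by
    have := hS 0
    rw [K.e0] at this
    omega
  by_contra hcon
  push Not at hcon
  by_cases hp : s ≤ β (x - n + 2)
  · exact killO K hS hSt hB hl l hP hPl (p := x - n + 2) (by omega) (by omega) hp hS1 (by omega)
  push Not at hp
  -- a block end `e`
  obtain ⟨e, he1, he2, he3⟩ : ∃ e : ℤ, x - n + 2 ≤ e ∧ e ≤ s - 1 ∧ β e = e := by
    by_cases h1 : β (s - 1) = s - 1
    · exact ⟨s - 1, by omega, le_rfl, h1⟩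
    obtain ⟨δ, hδ1, hδ2, hδ3, hδ4⟩ := K.exists_start (S := S - 1) (fun y => by
      have := hS y; omega) (s - 1)
    refine ⟨δ - 1, ?_, by omega, hδ3⟩
    by_contra h2
    push Not at h2
    have h3 := K.blk δ (x - n + 2) (by omega) (by have := K.le (s - 1); omega)
    have h4 := K.le (s - 1)
    omega
  by_cases hev : Even (l * t)
  · obtain ⟨r, hr⟩ := hev
    have hr' : 2 * (r : ℤ) = P := by
      rw [hP]
      have : ((l * t : ℕ) : ℤ) = ((r + r : ℕ) : ℤ) := by rw [hr]
      push_cast at this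
      omega
    have hb1 := hS (r - P - t)
    have hb2 := K.le (r - P - t)
    have h := K.betaUp (e := e) (y := s + r) (b := r - P - t) (by omega) (by omega) he3 (by omega)
      (by omega) (by omega) (by omega) (by omega) (by omega)
    omega
  · rw [Nat.even_mul, not_or, Nat.not_even_iff_odd, Nat.not_even_iff_odd] at hev
    have hl1 : 1 ≤ l := hev.1.pos
    have hPt : (t : ℤ) ≤ P := by
      rw [hP]
      have : (1 : ℤ) ≤ l := by exact_mod_cast hl1
      nlinarith
    obtain ⟨r, hr⟩ : ∃ r : ℤ, 2 * r = P + t := by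
      obtain ⟨q, hq⟩ := hev.1
      refine ⟨(q + 1) * t, ?_⟩
      rw [hP, hq]
      push_cast
      ring
    have hb1 := hS (s - 1 + r)
    have hb2 := K.le (s - 1 + r)
    have h := K.alphaUp (e := e) (d := s - 1 + r) (by omega) (by omega) he3 (by omega)
      (by omega) (by omega) (by omega)
    omega

/-- (4) -/
theorem small4 (l : ℕ) (hP : P = l * t) (hPl : 3 * l ≤ P) (hs2 : 2 ≤ s) (hst : s ≤ t)
    (hodd : Odd t → l = 0 → 2 * S ≤ s + 1)
    (hx : (n : ℤ) + s - 3 < x) : (n : ℤ) + t - 3 < x := by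
  have hm := K.hm
  have ht := K.ht
  have hS1 : 1 ≤ S := by
    have := hS 0
    rw [K.e0] at this
    omega
  by_contra hcon
  push Not at hcon
  obtain ⟨d, hd⟩ : ∃ d : ℤ, d = x - n + 2 := ⟨_, rfl⟩
  by_cases hdl : β d ≤ t + l + s - 1
  · exact killZ K hS hSt hB hl l hP hPl (d := d) (by omega) (by omega) hdl hS1 (by omega)
  push Not at hdl
  obtain ⟨δ, hδ1, hδ2, hδ3, hδ4⟩ := K.exists_start (S := S - 1) (fun y => by
    have := hS y; omega) d
  rcases Nat.even_or_odd t with he | ho
  · obtain ⟨u, hu⟩ := he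
    have hu' : (t : ℤ) = u + u := by rw [hu]; push_cast; ring
    -- alpha (i, l)
    by_cases hi : s + u - δ ≤ 0
    · have hb1 : β (s - 1 + u - 0) ≤ δ - 1 := by
        have := K.mono (show s - 1 + u - 0 ≤ δ - 1 by omega)
        omega
      have hb2 := K.le (s - 1 + u - 0)
      have h := killA K hS hSt hB hl 0 le_rfl (by omega) l (Q := P) hP hPl (r := u) (by omega)
        (a := -P + l) (by omega) (d := s - 1 + u - 0) rfl (by omega) (by omega) (by omega)
      omega
    · push Not at hi
      have h := killA K hS hSt hB hl (s + u - δ) (by omega) (by omega) l (Q := P) hP hPl (r := u)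
        (by omega) (a := -(s + u - δ) - P + l) (by omega) (d := δ - 1) (by omega) (by omega)
        (by omega) (by omega)
      omega
  · have hl1 : 1 ≤ l := by
      by_contra h0
      have := hodd ho (by omega)
      have := hS d
      omega
    have hPt : (t : ℤ) ≤ P := by
      rw [hP]
      have : (1 : ℤ) ≤ l := by exact_mod_cast hl1
      nlinarith
    have hQ : P - t = ((l - 1 : ℕ) : ℤ) * t := by
      rw [hP, Nat.cast_sub hl1]; push_cast; ring
    have hQj : 3 * ((l - 1 : ℕ) : ℤ) ≤ P - t := by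
      rw [hQ]
      have : (3 : ℤ) ≤ t := by exact_mod_cast ht
      nlinarith
    have hlc : ((l - 1 : ℕ) : ℤ) = l - 1 := by rw [Nat.cast_sub hl1]; rfl
    have h := killA K hS hSt hB hl (s + t - δ) (by omega) (by omega) (l - 1) (Q := P - t) hQ hQj
      (r := t) (by omega) (a := -(s + t - δ) - (P - t) + (l - 1 : ℕ)) (by omega) (d := δ - 1)
      (by omega) (by omega) (by omega) (by omega)
    omega

/-- (5) -/
theorem small5 (l : ℕ) (hP : P = l * t) (hPl : 3 * l ≤ P) (hs2 : 2 ≤ s) (hst : s ≤ t)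
    (hodd : Odd t → l = 0 → 2 * S ≤ s + 1)
    (hx : (n : ℤ) + t - 3 < x) : -P + l + m ≤ x := by
  have hm := K.hm
  have ht := K.ht
  have hS1 : 1 ≤ S := by
    have := hS 0
    rw [K.e0] at this
    omega
  by_contra hcon
  push Not at hcon
  have hb1 := hS (2 - n)
  have hb2 := K.le (2 - n)
  have hxb : x = β (2 - n) + m := by
    have W := dw_small' K.toNear K.e0 hS hSt hB 0 le_rfl (by omega) l hP (a := -P + l) (by omega)
    have h := K.betaW W (by omega) (y := 1) (b := 2 - n) (by omega) (by omega) (by omega)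
      (by omega) (by omega) (by omega) (by omega)
    omega
  obtain ⟨d, hd⟩ : ∃ d : ℤ, d = x - n + 2 := ⟨_, rfl⟩
  obtain ⟨i1, hi1⟩ : ∃ i1 : ℤ, i1 = d - t := ⟨_, rfl⟩
  have hi0 : 0 ≤ i1 := by omega
  have hiS : i1 ≤ S - 1 := by omega
  have hdS := hS d
  by_cases hZ : i1 ≤ s - 2 ∧ β d ≤ t + l + s - 1
  · exact killZ K hS hSt hB hl l hP hPl (d := d) (by omega) (by omega) hZ.2 hS1 (by omega)
  have hZ' : s - 1 ≤ i1 ∨ t + l + s ≤ β d := by omega
  rcases Nat.eq_zero_or_pos l with hl0 | hl1
  · -- `l = 0`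
    subst hl0
    have hP0 : P = 0 := by rw [hP]; simp
    subst hP0
    rcases Nat.even_or_odd t with he | ho
    · obtain ⟨u, hu⟩ := he
      have hu' : (t : ℤ) = u + u := by rw [hu]; push_cast; ring
      have hneg : β (2 - n) < 0 := by
        simp at hcon
        omega
      have hnb : β (2 - n) ≤ -S := by
        by_contra h0
        push Not at h0
        have h1 := K.blk (-S + 1) (β (2 - n)) (by omega) (by rw [hB]; omega)
        rw [K.idem, hB] at h1
        omega
      rcases hZ' with hZ1 | hZ1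
      · by_cases hb : β (s - 1 + u) ≤ s - 1 + t
        · have hb3 := K.le (s - 1 + u)
          have h := killA K hS hSt hB hl 0 le_rfl (by omega) 0 (Q := 0) (by simp) (by simp)
            (r := u) (by omega) (a := 0) (by simp) (d := s - 1 + u) (by omega) (by omega)
            (by omega) (by omega)
          omega
        · push Not at hb
          obtain ⟨δ, hδ1, hδ2, hδ3, hδ4⟩ := K.exists_start (S := S - 1) (fun y => by
            have := hS y; omega) (s - 1 + u)
          have h := killA K hS hSt hB hl (s + u - δ) (by omega) (by omega) 0 (Q := 0) (by simp)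
            (by simp) (r := u) (by omega) (a := -(s + u - δ)) (by simp) (d := δ - 1) (by omega)
            (by omega) (by omega) (by omega)
          omega
      · obtain ⟨δ, hδ1, hδ2, hδ3, hδ4⟩ := K.exists_start (S := S - 1) (fun y => by
          have := hS y; omega) d
        by_cases hi : s + u - δ ≤ 0
        · by_cases hi2 : i1 ≤ s - 2
          · have hb3 : β (s - 1 + u) ≤ δ - 1 := by
              have := K.mono (show s - 1 + u ≤ δ - 1 by omega)
              omega
            have hb4 := K.le (s - 1 + u)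
            have h := killA K hS hSt hB hl 0 le_rfl (by omega) 0 (Q := 0) (by simp) (by simp)
              (r := u) (by omega) (a := 0) (by simp) (d := s - 1 + u) (by omega) (by omega)
              (by omega) (by omega)
            omega
          · by_cases hb : β (s - 1 + u) ≤ s - 1 + t
            · have hb3 := K.le (s - 1 + u)
              have h := killA K hS hSt hB hl 0 le_rfl (by omega) 0 (Q := 0) (by simp) (by simp)
                (r := u) (by omega) (a := 0) (by simp) (d := s - 1 + u) (by omega) (by omega)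
                (by omega) (by omega)
              omega
            · push Not at hb
              obtain ⟨δ', hδ1', hδ2', hδ3', hδ4'⟩ := K.exists_start (S := S - 1) (fun y => by
                have := hS y; omega) (s - 1 + u)
              have h := killA K hS hSt hB hl (s + u - δ') (by omega) (by omega) 0 (Q := 0)
                (by simp) (by simp) (r := u) (by omega) (a := -(s + u - δ')) (by simp)
                (d := δ' - 1) (by omega) (by omega) (by omega) (by omega)
              omega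
        · push Not at hi
          have h := killA K hS hSt hB hl (s + u - δ) (by omega) (by omega) 0 (Q := 0) (by simp)
            (by simp) (r := u) (by omega) (a := -(s + u - δ)) (by simp) (d := δ - 1) (by omega)
            (by omega) (by omega) (by omega)
          omega
    · have h1 := hodd ho rfl
      obtain ⟨q, hq⟩ := ho
      have hte := K.hte
      omega
  · have hPt : (t : ℤ) ≤ P := by
      rw [hP]
      have : (1 : ℤ) ≤ l := by exact_mod_cast hl1
      nlinarith
    have hQ : P - t = ((l - 1 : ℕ) : ℤ) * t := by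
      rw [hP, Nat.cast_sub hl1]; push_cast; ring
    have hQj : 3 * ((l - 1 : ℕ) : ℤ) ≤ P - t := by
      rw [hQ]
      have : (3 : ℤ) ≤ t := by exact_mod_cast ht
      nlinarith
    have hlc : ((l - 1 : ℕ) : ℤ) = l - 1 := by rw [Nat.cast_sub hl1]; rfl
    by_cases hi : s - i1 ≤ 0
    · have hb3 := hS (s - 1 + t)
      have hb4 := K.le (s - 1 + t)
      have h := killA K hS hSt hB hl 0 le_rfl (by omega) (l - 1) (Q := P - t) hQ hQj
        (r := t) (by omega) (a := -(P - t) + (l - 1 : ℕ)) (by omega) (d := s - 1 + t)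
        (by omega) (by omega) (by omega) (by omega)
      omega
    · push Not at hi
      have hb3 := hS (t + i1 - 1)
      have hb4 := K.le (t + i1 - 1)
      have h := killA K hS hSt hB hl (s - i1) (by omega) (by omega) (l - 1) (Q := P - t) hQ hQj
        (r := t) (by omega) (a := -(s - i1) - (P - t) + (l - 1 : ℕ)) (by omega)
        (d := t + i1 - 1) (by omega) (by omega) (by omega) (by omega)
      omega

/-- (6) -/
theorem small6 (l : ℕ) (hP : P = l * t) (hPl : 3 * l ≤ P) (hs2 : 2 ≤ s) (hst : s ≤ t)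
    (hx : -P + l + m ≤ x) : False := by
  have hm := K.hm
  have ht := K.ht
  have hxm := K.xm
  have hS1 : 1 ≤ S := by
    have := hS 0
    rw [K.e0] at this
    omega
  have hl1 : 1 ≤ l := by
    by_contra h0
    have h1 : l = 0 := by omega
    subst h1
    rw [hP] at hx
    simp at hx
    omega
  -- the step
  have hex : ∃ j : ℕ, (m : ℤ) - x ≤ (j + 1) * (t - 1) := by
    refine ⟨l - 1, ?_⟩
    rw [Nat.cast_sub hl1]
    push_cast
    have : ((l : ℤ) - 1 + 1) * (t - 1) = P - l := by rw [hP]; ring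
    rw [this]
    omega
  classical
  obtain ⟨j, hj, hjmin⟩ : ∃ j : ℕ, (m : ℤ) - x ≤ (j + 1) * (t - 1) ∧
      ∀ i < j, ¬ ((m : ℤ) - x ≤ (i + 1) * (t - 1)) :=
    ⟨Nat.find hex, Nat.find_spec hex, fun i hi => Nat.find_min hex hi⟩
  obtain ⟨Q, hQ⟩ : ∃ Q : ℤ, Q = (j : ℤ) * t := ⟨_, rfl⟩
  have hj2 : (m : ℤ) - x ≤ Q + t - j - 1 := by
    have : ((j : ℤ) + 1) * (t - 1) = Q + t - j - 1 := by rw [hQ]; ring
    omega
  have hj3 : Q - j < m - x := by
    rcases Nat.eq_zero_or_pos j with h0 | h0
    · subst h0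
      rw [hQ]
      simp
      omega
    · have h1 := hjmin (j - 1) (by omega)
      rw [Nat.cast_sub h0] at h1
      push_cast at h1
      have : ((j : ℤ) - 1 + 1) * (t - 1) = Q - j := by rw [hQ]; ring
      rw [this] at h1
      omega
  have hjl : j + 1 ≤ l := by
    by_contra h0
    push Not at h0
    have h1 := hjmin (l - 1) (by omega)
    apply h1
    rw [Nat.cast_sub hl1]
    push_cast
    have : ((l : ℤ) - 1 + 1) * (t - 1) = P - l := by rw [hP]; ring
    rw [this]
    omega
  have hQj : 3 * (j : ℤ) ≤ Q := by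
    rw [hQ]
    have : (3 : ℤ) ≤ t := by exact_mod_cast ht
    nlinarith
  have hPQ : P - Q = ((l : ℤ) - j) * t := by rw [hP, hQ]; ring
  have hPQt : (t : ℤ) ≤ P - Q := by
    rw [hPQ]
    have h1 : (1 : ℤ) ≤ (l : ℤ) - j := by omega
    nlinarith
  by_cases hev : Even t ∨ Even (l + 1 - j)
  · obtain ⟨r, hr⟩ : ∃ r : ℤ, 2 * r = P + t - Q := by
      have e : P + t - Q = ((l : ℤ) + 1 - j) * t := by rw [hP, hQ]; ring
      rcases hev with ⟨u, hu⟩ | ⟨u, hu⟩
      · refine ⟨((l : ℤ) + 1 - j) * u, ?_⟩
        rw [e, hu]; push_cast; ring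
      · refine ⟨u * t, ?_⟩
        have h1 : (l : ℤ) + 1 - j = u + u := by omega
        rw [e, h1]; ring
    have hb3 := hS (s - 1 + r)
    have hb4 := K.le (s - 1 + r)
    have h := killA K hS hSt hB hl 0 le_rfl (by omega) j hQ hQj hr (a := -Q + j) (by omega)
      (d := s - 1 + r) (by omega) (by omega) (by omega) (by omega)
    omega
  · rw [not_or, Nat.not_even_iff_odd, Nat.not_even_iff_odd] at hev
    obtain ⟨u, hu⟩ := hev.2
    have hlj : (l : ℤ) - j = 2 * u := by omega
    have hu1 : (1 : ℤ) ≤ u := by omega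
    have hr : 2 * ((u : ℤ) * t) = P - Q := by rw [hPQ, hlj]; ring
    have hr2 : (t : ℤ) ≤ u * t := by nlinarith
    obtain ⟨r, hr0⟩ : ∃ r : ℤ, r = (u : ℤ) * t := ⟨_, rfl⟩
    rw [← hr0] at hr hr2
    have hb3 := hS (r - P - t)
    have hb4 := K.le (r - P - t)
    have h := killB K hS hSt hB hl 0 le_rfl (by omega) j hQ hQj hr (by omega) (a := -Q + j)
      (by omega) (b := r - P - t) (by omega) (by omega)
    omega

end fam

/-- The chord `X = (0, s)` cannot have a colour, when `n - 1 = (l + 1) t + s`, `2 ≤ s ≤ t`. -/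
theorem small_kill0 (K : Kill c n t m v β s x) {S : ℤ} (hS : ∀ x, β x ≤ x + S - 1)
    (hSt : S ≤ t - 1) (hB : β (-S + 1) = 0) (l : ℕ) (hl : (n : ℤ) = (l + 1) * t + s + 1)
    (hs2 : 2 ≤ s) (hst : s ≤ t) (hso : s % 2 = 1) : False := by
  have hodd : Odd t → l = 0 → 2 * S ≤ s + 1 := by
    intro h
    have hte := K.hte
    obtain ⟨q, hq⟩ := h
    omega
  obtain ⟨P, hP⟩ : ∃ P : ℤ, P = (l : ℤ) * t := ⟨_, rfl⟩
  have hl' : (n : ℤ) = P + t + s + 1 := by rw [hl, hP]; ring
  have ht := K.ht
  have hPl : 3 * (l : ℤ) ≤ P := by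
    rw [hP]
    have : (3 : ℤ) ≤ t := by exact_mod_cast ht
    nlinarith
  have h1 := K.long hs2 hst hso
  have h2 := small2 K hS hSt hB hl' l hP hPl hs2 h1
  have h3 := small3 K hS hSt hB hl' l hP hPl hs2 hst h2
  have h4 := small4 K hS hSt hB hl' l hP hPl hs2 hst hodd h3
  have h5 := small5 K hS hSt hB hl' l hP hPl hs2 hst hodd h4
  exact small6 K hS hSt hB hl' l hP hPl hs2 hst h5

/-- same with a maximal block ending anywhere; also the label of `X` exists -/
theorem small_kill (N : Near c n t m v β) {S e : ℤ} (hS : ∀ x, β x ≤ x + S - 1)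
    (hSt : S ≤ t - 1) (he : β e = e) (hB : β (e - S + 1) = e) (l : ℕ) (s : ℕ)
    (hl : n = (l + 1) * t + s + 1)
    (hs2 : 2 ≤ s) (hst : s ≤ t) (hso : s % 2 = 1) : False := by
  have hte := N.hte
  have hm := N.hm
  have ht := N.ht
  have htn := N.htn
  have N' := N.shift e
  obtain ⟨L, hL1, hL2, hL3⟩ := N.toBase.absent (L := m - s + 1) (Or.inr (by omega))
  have W := Wk.arc (c := c) (v := fun x => v (x + e)) (x := m) (y := s) (l := s) (r := m)
    (z := m) (Or.inr ⟨rfl, rfl⟩) (by omega) (by omega)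
  obtain ⟨q, hq, hq'⟩ := uno N'.F W hL3 hL2 (by omega) (by omega) (by omega)
  have K : Kill c n t m (fun x => v (x + e)) (fun x => β (x + e) - e) s q :=
    { toNear := N'
      e0 := by show β (0 + e) - e = 0; rw [zero_add, he, sub_self]
      hs := by omega
      hsm := by omega
      hX := (hq.shift1 N'.F (x' := s) (y' := 0) (g' := q) (by omega) (by omega)
        (by omega)).symm
      x0 := by omega
      xm := by omega }
  refine small_kill0 K (S := S) ?_ hSt ?_ l ?_ (by exact_mod_cast hs2) (by exact_mod_cast hst) ?_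
  · intro x
    show β (x + e) - e ≤ x + S - 1
    have := hS (x + e)
    omega
  · show β (-S + 1 + e) - e = 0
    rw [show -S + 1 + e = e - S + 1 by ring, hB, sub_self]
  · rw [hl]; push_cast; ring
  · omega

end Pool.Agent.helper64.RE
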