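import Mathlib
import Pool.Agent.helper64.RE.Near

set_option autoImplicit false

/-! # `t ∣ n - 2` and all blocks are singletons (partly adapted from
`Pool.Agent.helper94.RB.VCase`) -/

namespace Pool.Agent.helper64.RE

open Pool.Agent.helper94.Rainbow Pool.Agent.helper94.RainbowTwice Pool.Agent.helper94.RB

variable {V C : Type} {c : Sym2 V → C} {n t m : ℕ} {v : ℤ → V} {β : ℤ → ℤ} {s x : ℤ}

/-- the down-walk by `j` jumps `H_y`, from `0` to `a = - j (t - 1)` -/
theorem vcase_walk (N : Near c n t m v β) (hβ : ∀ x, β x = x) (j : ℕ) :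
    Wk c v (-(j * (t - 1))) 0 (-(j * (t - 1))) 0 (β (-(j * (t - 1)))) 0 (-(j * (t - 1)))
      (j + 1) := by
  have ht := N.ht
  induction j with
  | zero => simpa using Wk.single (c := c) (v := v) (0 : ℤ) (E := 0) (E' := 0) (z := β 0)
  | succ j ih =>
    obtain ⟨a, ha⟩ : ∃ a : ℤ, a = -(j * (t - 1)) := ⟨_, rfl⟩
    have ha' : -(((j + 1 : ℕ) : ℤ) * (t - 1)) = a - t + 1 := by
      rw [ha]; push_cast; ring
    have hj0 : a ≤ 0 := by
      rw [ha]
      have : (0 : ℤ) ≤ j * (t - 1) := mul_nonneg (by omega) (by omega)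
      omega
    rw [ha', hβ]
    rw [← ha, hβ] at ih
    have cH := (N.colH a).symm
    rw [hβ] at cH
    have W := Wk.single (c := c) (v := v) (a - t + 1) (E := a - t + 1) (E' := a - t)
      (z := a - t + 1)
    have := ih.join W a cH (a - t + 1) 0 (a - t + 1) 0 (a - t + 1) (by omega) (by omega)
      (by omega) (by omega) (by omega) (by omega) (by omega)
    rw [show ((j + 1 : ℕ) : ℤ) + 1 = (j : ℤ) + 1 + 1 by push_cast; ring]
    exact this

/-- the chord `(0, t + 1)` has some label -/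
theorem vcase_label (N : Near c n t m v β) (hβ : ∀ x, β x = x) (r : ℕ) (hr : 1 ≤ r)
    (hK : (n : ℤ) = 2 * (r * t) + t + 2) :
    ∃ x, Col c v 0 (t + 1) x := by
  have ht := N.ht
  have hm := N.hm
  have htn := N.htn
  obtain ⟨P, hP⟩ : ∃ P : ℤ, P = r * t := ⟨_, rfl⟩
  rw [← hP] at hK
  have W := vcase_walk N hβ 1
  rw [show -(((1 : ℕ) : ℤ) * ((t : ℤ) - 1)) = -t + 1 by push_cast; ring, hβ] at W
  have hPt : (t : ℤ) ≤ P := by
    rw [hP]
    have : (1 : ℤ) * t ≤ r * t := by
      apply mul_le_mul_of_nonneg_right <;> omega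
    omega
  have c1 := N.colC (-t + 1)
  have c2 := N.colC (-P - t)
  rw [hβ] at c1 c2
  obtain ⟨q, hq, -⟩ := tri N.F W N.no (by omega) (-t + 1 + n - 1) (-P - t + m) (-t + 1 + n - 1)
    (-P - t + m) (-t + 1) (P + 1) (t + 1) (t + 1) (P + 1) (-P - t + m) (-t + 1) (-t + 1)
    (c1.shift1 N.F (by omega) (by omega) (by omega))
    (c2.shift1 N.F (by omega) (by omega) (by omega))
    (by omega) (by omega) (by push_cast; omega) (by omega) (by omega) (by omega) (by omega)
    (by omega) (by omega)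
  exact ⟨q, hq.symm⟩

/-- all chords `J_0` have colour `0`, when `K = 2 r + 1`, `r ≥ 1` -/
theorem vcase_x (K : Kill c n t m v β (t + 1) x) (hβ : ∀ x, β x = x) (r : ℕ) (hr : 1 ≤ r)
    (hK : (n : ℤ) = 2 * (r * t) + t + 2) : x = 0 := by
  have ht := K.ht
  have hm := K.hm
  have htn := K.htn
  have hx := K.x0
  have hx' := K.xm
  obtain ⟨P, hP⟩ : ∃ P : ℤ, P = r * t := ⟨_, rfl⟩
  rw [← hP] at hK
  have hPt : (t : ℤ) ≤ P := by
    rw [hP]
    have : (1 : ℤ) * t ≤ r * t := by
      apply mul_le_mul_of_nonneg_right <;> omega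
    omega
  -- the family `beta(0, 2 i + 1)`
  have hbeta : ∀ i : ℕ, i + 1 ≤ r → ∀ Q : ℤ, Q = i * t → Q + t ≤ P →
      -2 * Q - t + 2 * i + 1 + m ≤ x ∨ x = 0 ∨ (2 * P - 2 * Q + 2 * i + 2 ≤ x ∧ x ≤ -P - Q - t + m)
      ∨ (t + 1 ≤ x ∧ x < P - Q + 1) := by
    intro i hi Q hQ hQP
    have W := vcase_walk K.toNear hβ (2 * i + 1)
    have hQ0 : 0 ≤ Q := by
      rw [hQ]; exact mul_nonneg (by omega) (by omega)
    have hQi : (i : ℤ) ≤ Q := by
      rw [hQ]
      have : (i : ℤ) * 1 ≤ i * t := by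
        apply mul_le_mul_of_nonneg_left <;> omega
      omega
    have ea : -(((2 * i + 1 : ℕ) : ℤ) * ((t : ℤ) - 1)) = -2 * Q - t + 2 * i + 1 := by
      rw [hQ]; push_cast; ring
    rw [ea] at W
    have h1 : β (-P - Q - t) = -P - Q - t := hβ _
    have := K.beta (y := P - Q + 1) (b := -P - Q - t) W (by omega) (by omega) (by omega)
      (by push_cast; omega) (by omega) (by omega)
    rw [h1] at this
    omega
  -- the family `alpha(0, 2 i)`
  have halpha : ∀ i : ℕ, i ≤ r → ∀ Q : ℤ, Q = i * t → Q ≤ P → 1 ≤ P - Q →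
      -2 * Q + 2 * i + m ≤ x ∨ x = 0 ∨
        (-2 * Q + 2 * i + n - 1 ≤ x ∧ x < t + P - Q + n - 1) ∨ x = t + P - Q ∨
        (t + 1 ≤ x ∧ x < t + P - Q) := by
    intro i hi Q hQ hQP hQP'
    have W := vcase_walk K.toNear hβ (2 * i)
    have hQ0 : 0 ≤ Q := by
      rw [hQ]; exact mul_nonneg (by omega) (by omega)
    have hQi : (i : ℤ) ≤ Q := by
      rw [hQ]
      have : (i : ℤ) * 1 ≤ i * t := by
        apply mul_le_mul_of_nonneg_left <;> omega
      omega
    have ea : -(((2 * i : ℕ) : ℤ) * ((t : ℤ) - 1)) = -2 * Q + 2 * i := by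
      rw [hQ]; push_cast; ring
    rw [ea] at W
    have h1 : β (t + P - Q) = t + P - Q := hβ _
    have := K.alpha (d := t + P - Q) W (by omega) (by omega)
      (by push_cast; omega) (by omega) (by omega)
    rw [h1] at this
    omega
  -- `x` is not in `[t + 1, 2 P + 1]`
  have hA : ∀ u : ℕ, 1 ≤ u → u ≤ r → ∀ U : ℤ, U = u * t →
      ¬ ((t : ℤ) + 1 ≤ x ∧ x ≤ 2 * U + 2 * (r - u) + 1) := by
    intro u hu
    induction u, hu using Nat.le_induction with
    | base =>
      intro hur U hU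
      rw [Nat.cast_one, one_mul] at hU
      subst hU
      obtain ⟨Q, hQ⟩ : ∃ Q : ℤ, Q = ((r - 1 : ℕ) : ℤ) * t := ⟨_, rfl⟩
      have hQ' : Q = P - t := by
        rw [hQ, hP, Nat.cast_sub hur]; push_cast; ring
      have := hbeta (r - 1) (by omega) Q hQ (by omega)
      have hrP : (r : ℤ) - 1 ≤ Q := by
        rw [hQ]
        have : ((r - 1 : ℕ) : ℤ) * 1 ≤ ((r - 1 : ℕ) : ℤ) * t := by
          apply mul_le_mul_of_nonneg_left <;> omega
        omega
      push_cast
      omega
    | succ u hu ih =>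
      intro hur U hU
      have ih' := ih (by omega) (U - t) (by rw [hU]; push_cast; ring)
      obtain ⟨Q, hQ⟩ : ∃ Q : ℤ, Q = ((r - (u + 1) : ℕ) : ℤ) * t := ⟨_, rfl⟩
      have hQ' : Q = P - U := by
        rw [hQ, hP, hU, Nat.cast_sub hur]; ring
      have hUt : 2 * (t : ℤ) ≤ U := by
        rw [hU]
        apply mul_le_mul_of_nonneg_right <;> omega
      have hrP : (r : ℤ) - (u + 1) ≤ Q := by
        rw [hQ]
        have : ((r - (u + 1) : ℕ) : ℤ) * 1 ≤ ((r - (u + 1) : ℕ) : ℤ) * t := by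
          apply mul_le_mul_of_nonneg_left <;> omega
        omega
      have := hbeta (r - (u + 1)) (by omega) Q hQ (by omega)
      push_cast
      omega
  have hA' := hA r hr le_rfl P hP
  have hB0 := halpha 0 (by omega) 0 (by simp) (by omega) (by omega)
  have hb0 := hbeta 0 (by omega) 0 (by simp) (by omega)
  -- `x < - j (t - 1) + m` for `j ≤ 2 r - 2` even
  by_contra hx0
  have hB : ∀ i : ℕ, i + 1 ≤ r → ∀ Q : ℤ, Q = i * t → x < -2 * Q + 2 * i + m := by
    intro i
    induction i with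
    | zero =>
      intro _ Q hQ
      rw [Nat.cast_zero, zero_mul] at hQ
      push_cast
      omega
    | succ i ih =>
      intro hi Q hQ
      have hQt : Q + t ≤ P := by
        rw [hQ, hP]
        have : ((i + 1 : ℕ) : ℤ) * t + 1 * t ≤ r * t := by
          rw [← add_mul]
          apply mul_le_mul_of_nonneg_right <;> omega
        omega
      have e1 : Q - t = i * t := by rw [hQ]; push_cast; ring
      have hQi : (i : ℤ) ≤ Q - t := by
        rw [e1]
        have : (i : ℤ) * 1 ≤ i * t := by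
          apply mul_le_mul_of_nonneg_left <;> omega
        omega
      have h1 := ih (by omega) (Q - t) e1
      have h2 := halpha i (by omega) (Q - t) e1 (by omega) (by omega)
      have h3 := hbeta i (by omega) (Q - t) e1 (by omega)
      push_cast
      omega
  obtain ⟨r', rfl⟩ : ∃ r', r = r' + 1 := ⟨r - 1, by omega⟩
  have eQ : P - t = (r' : ℤ) * t := by rw [hP]; push_cast; ring
  have hQi : (r' : ℤ) ≤ P - t := by
    rw [eQ]
    have : (r' : ℤ) * 1 ≤ r' * t := by
      apply mul_le_mul_of_nonneg_left <;> omega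
    omega
  have h1 := hB r' (by omega) (P - t) eQ
  have h2 := halpha r' (by omega) (P - t) eQ (by omega) (by omega)
  have W := vcase_walk K.toNear hβ (2 * r' + 1)
  have ea : -(((2 * r' + 1 : ℕ) : ℤ) * ((t : ℤ) - 1)) = -2 * (P - t) - t + 2 * r' + 1 := by
    rw [eQ]; push_cast; ring
  rw [ea] at W
  have h3 := K.betaW (y := 1) (b := 2 - n) W (by omega) (by omega) (by omega) (by omega) (by omega)
    (by push_cast; omega) (by rw [hβ]; omega) (by omega)
  rw [hβ] at h3
  have h4 := K.alphaUp (e := t) (d := t + P) (by omega) (by omega) (hβ _) (by omega) (by omega)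
    (by rw [hβ]; omega) (by omega)
  rw [hβ] at h4
  push_cast at hA'
  omega

/-- all chords `J_p = (p, p + t + 1)` have colour `p` -/
theorem vcase_J (N : Near c n t m v β) (hβ : ∀ x, β x = x) (K : ℕ)
    (hK : n = K * t + 2) (hKodd : Odd K) (p : ℤ) : Col c v p (p + t + 1) p := by
  obtain ⟨r, rfl⟩ := hKodd
  rcases Nat.eq_zero_or_pos r with rfl | hr
  · have := N.colC p
    rw [hβ] at this
    rw [show p + t + 1 = p + n - 1 by rw [hK]; push_cast; ring]
    exact this
  · have hK' : (n : ℤ) = 2 * (r * t) + t + 2 := by rw [hK]; push_cast; ring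
    have N' := N.shift p
    have hβ' : ∀ x, β (x + p) - p = x := by
      intro x; rw [hβ]; ring
    obtain ⟨y, hy⟩ := vcase_label N' hβ' r hr hK'
    have hm := N.hm
    have htn := N.htn
    have ht3 := N.ht
    have hm0 : (m : ℤ) ≠ 0 := by omega
    have hm1 : (0 : ℤ) < m := by omega
    have K' : Kill c n t m (fun x => v (x + p)) (fun x => β (x + p) - p) (t + 1) (y % m) := by
      refine ⟨N', hβ' 0, by omega, by omega, ?_, Int.emod_nonneg _ hm0, Int.emod_lt_of_pos _ hm1⟩
      refine hy.shift N'.F (by simp) (by simp) ?_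
      exact ⟨-(y / m), by
        have := Int.emod_add_mul_ediv y m
        linarith⟩
    have := vcase_x K' hβ' r hr hK'
    have h0 := K'.hX
    rw [this] at h0
    unfold Col at h0 ⊢
    simp only [zero_add] at h0
    rw [show p + (t : ℤ) + 1 = (t : ℤ) + 1 + p by ring, h0, add_comm 1 p]

/-- the chord `(0, u)`, `t = 2 u`, has colour `u` -/
theorem vcase_U0 (N : Near c n t m v β) (hβ : ∀ x, β x = x) (u : ℕ) (hu : t = 2 * u)
    (hu2 : u % 2 = 1) (hJ : ∀ p, Col c v p (p + t + 1) p) : Col c v 0 u u := by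
  have hm := N.hm
  have htn := N.htn
  have ht3 := N.ht
  have hne := N.hn
  have cC : ∀ x, Col c v x (x + n - 1) x := by
    intro x
    have := N.colC x
    rwa [hβ] at this
  obtain ⟨σ, hσ⟩ : ∃ σ : ℤ, 2 * σ = u + 1 := ⟨(u + 1) / 2, by omega⟩
  obtain ⟨w, hw⟩ : ∃ w : ℤ, w = m + σ - t - 1 := ⟨_, rfl⟩
  have uniq : ∀ {q q' : ℤ}, Col c v u 0 q → Col c v u 0 q' → 0 ≤ q → q < m → 0 ≤ q' → q' < m →
      q = q' := by
    intro q q' h h' h1 h2 h3 h4
    exact h.uniq_window N.F h' h1 (by omega) h3 (by omega)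
  -- the long way round
  obtain ⟨L, hL1, hL2, hL3⟩ := N.toBase.absent (L := m - u + 1) (Or.inr (by omega))
  obtain ⟨qa, ha, ha'⟩ := uno N.F (Wk.arc (c := c) (v := v) (x := m) (y := u) (l := u)
    (r := m) (z := m) (Or.inr ⟨rfl, rfl⟩) (by omega) (by omega)) hL3 hL2 (by omega) (by omega)
    (by omega)
  have ha2 : Col c v u 0 qa := ha.shift1 N.F (by omega) (by omega) (by omega)
  -- the three cycles of length `n`
  have W := Wk.arc (c := c) (v := v) (x := 0) (y := σ) (l := 0) (r := σ)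
    (z := σ) (Or.inl ⟨rfl, rfl⟩) (by omega) (by omega)
  have cJ : Col c v σ w w := (hJ w).symm.shift1 N.F (by omega) (by omega) (by omega)
  obtain ⟨qb, hb, hb'⟩ := tri N.F W N.no (by omega) w (u + n - 1) (u + n - 1) w w
    u u u u u 0 0 cJ (cC u).symm
    (by omega) (by omega) (by omega) (by omega) (by omega) (by omega) (by omega) (by omega)
    (by omega)
  obtain ⟨z, hz⟩ : ∃ z : ℤ, z = n + σ - 4 := ⟨_, rfl⟩
  obtain ⟨qc, hc, hc'⟩ := tri N.F W N.no (by omega) w w w w w
    z u u z z 0 0 cJ ((cC z).symm.shift1 N.F (by omega) (by omega) (by omega))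
    (by omega) (by omega) (by omega) (by omega) (by omega) (by omega) (by omega) (by omega)
    (by omega)
  obtain ⟨d, hd⟩ : ∃ d : ℤ, 2 * d = n - 3 + u := ⟨(n - 3 + u) / 2, by omega⟩
  have W0 := Wk.single (c := c) (v := v) (0 : ℤ) (E := 0) (E' := -1) (z := 0)
  obtain ⟨qd, hd1, hd'⟩ := tri N.F W0 N.no (by omega) (n - 1) (d + n - 1) (n - 1) (d + n - 1)
    0 d u u d d 0 0 ((cC 0).shift1 N.F (by omega) (by omega) (by omega)) (cC d).symm
    (by omega) (by omega) (by omega) (by omega) (by omega) (by omega) (by omega) (by omega)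
    (by omega)
  have e1 := uniq ha2 hb (by omega) (by omega) (by omega) (by omega)
  have e2 := uniq ha2 hc (by omega) (by omega) (by omega) (by omega)
  have e3 := uniq ha2 hd1 (by omega) (by omega) (by omega) (by omega)
  have e4 : qa = u := by omega
  rw [e4] at ha2
  exact ha2.symm

theorem vcase (N : Near c n t m v β) (hβ : ∀ x, β x = x) (K : ℕ)
    (hK : n = K * t + 2) : False := by
  have hm := N.hm
  have htn := N.htn
  have ht3 := N.ht
  have hne := N.hn
  have hte := N.hte
  obtain ⟨u, hu⟩ : ∃ u : ℕ, t = 2 * u := ⟨t / 2, by omega⟩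
  have hKu : (K * u) % 2 = 1 := by
    have : K * t = 2 * (K * u) := by rw [hu]; ring
    omega
  have hKo : Odd (K * u) := Nat.odd_iff.mpr hKu
  have hKodd : Odd K := (Nat.odd_mul.mp hKo).1
  have huo : Odd u := (Nat.odd_mul.mp hKo).2
  have hu2 : u % 2 = 1 := Nat.odd_iff.mp huo
  have hJ := vcase_J N hβ K hK hKodd
  have hU : ∀ p, Col c v p (p + u) (p + u) := by
    intro p
    have N' := N.shift p
    have h := vcase_U0 N' (fun x => by rw [hβ]; ring) u hu hu2 (fun x => by
      have := hJ (x + p)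
      unfold Col at this ⊢
      show c s(v (x + p), v (x + t + 1 + p)) = c s(v (x + p), v (x + 1 + p))
      rw [show x + (t : ℤ) + 1 + p = x + p + t + 1 by ring, this,
        show x + p + 1 = x + 1 + p by ring])
    unfold Col at h ⊢
    simp only [zero_add] at h
    rw [show p + (u : ℤ) = u + p by ring, show (u : ℤ) + p + 1 = u + 1 + p by ring]
    exact h
  have cC : ∀ x, Col c v x (x + n - 1) x := by
    intro x
    have := N.colC x
    rwa [hβ] at this
  -- the final cycle
  have hn2 : (t : ℤ) + 2 ≤ n := by omega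
  have W0 := Wk.single (c := c) (v := v) ((t : ℤ) + 1) (E := t + 1) (E' := t) (z := t + 1)
  have W1 := Wk.single (c := c) (v := v) ((u : ℤ) + 1) (E := u + 1) (E' := u) (z := u + 1)
  have c1 : Col c v ((t : ℤ) + 1) (u + 1) (t + 1) := by
    have := (hU (u + 1)).symm
    rw [show (u : ℤ) + 1 + u = t + 1 by omega] at this
    exact this
  have W := W0.join W1 (t + 1) c1 (u + 1) (t + 1) (t + 1) (t + 1) 0 (by omega) (by omega)
    (by omega) (by omega) (by omega) (by omega) (by omega)
  have c2 : Col c v ((u : ℤ) + 1) (u + t + 2) (u + 1) := by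
    have := hJ (u + 1)
    rw [show (u : ℤ) + 1 + t + 1 = u + t + 2 by ring] at this
    exact this
  have c3 : Col c v ((u : ℤ) + t + 2) (t + 2) (u + t + 2) := by
    have := (hU (t + 2)).symm
    rw [show (t : ℤ) + 2 + u = u + t + 2 by ring] at this
    exact this
  have c4 : Col c v ((t : ℤ) + 2) (n + t + 1) (t + 2) := by
    have := cC (t + 2)
    rw [show (t : ℤ) + 2 + n - 1 = n + t + 1 by ring] at this
    exact this
  obtain ⟨q, hq, hq'⟩ := quad N.F W N.no (by omega) (u + t + 2) (u + t + 2) (u + t + 2)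
    (u + t + 2) (u + 1) (t + 2) (t + 2) (t + 2) (t + 2) (u + t + 2)
    (n + t + 1) m (n + t + 1) m (t + 2) 1 1 c2 c3 c4
    (by omega) (by omega) (by omega) (by omega) (by omega) (by omega) (by omega) (by omega)
    (by omega) (by omega) (by omega)
  have h0 : Col c v m (t + 1) m := by
    refine (hJ 0).shift1 N.F (by omega) (by omega) (by omega)
  have := hq.uniq_window N.F h0 (B := 1) (by omega) (by omega) (by omega) (by omega)
  omega

end Pool.Agent.helper64.RE
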