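import Mathlib
import Pool.Agent.helper64.RE.Dich
import Pool.Agent.helper64.RE.AA
import Pool.Agent.helper64.RE.Small
import Pool.Agent.helper64.RE.VCase

set_option autoImplicit false

/-!
# Every even length `≥ 2n - 2` implies `n`, for `4 ∣ n`

The proof follows the pattern of the proof for odd `n` (`Pool.Agent.helper94.RB`). New are the
near dichotomy (`near_dich`) and the singleton case (`vcase`).
-/

namespace Pool.Agent.helper64.RE

open Pool.Agent.helper94.Rainbow Pool.Agent.helper94.RainbowTwice Pool.Agent.helper94.RB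

variable {V C : Type} {c : Sym2 V → C} {n t m : ℕ} {v : ℤ → V} {β : ℤ → ℤ}

/-- a largest block -/
theorem Near.exists_max (N : Near c n t m v β) {B : ℤ} (hB : ∀ x, β x - x ≤ B) :
    ∃ S e : ℤ, 1 ≤ S ∧ (∀ x, β x ≤ x + S - 1) ∧ β e = e ∧ β (e - S + 1) = e := by
  obtain ⟨M, ⟨x, hx⟩, hM⟩ := Int.exists_greatest_of_bdd (P := fun z => ∃ x, β x - x = z)
    ⟨B, by rintro z ⟨x, rfl⟩; exact hB x⟩ ⟨β 0 - 0, 0, rfl⟩
  have h0 := N.le x
  refine ⟨M + 1, β x, by omega, ?_, N.idem x, ?_⟩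
  · intro y
    have := hM _ ⟨y, rfl⟩
    omega
  · rw [show β x - (M + 1) + 1 = x by omega]

theorem Base.false (N : Base c n t m v) : False := by
  obtain ⟨v', β, N', hb⟩ := near_dich N
  have hm := N.hm
  have ht3 := N.ht
  have htn := N.htn
  have hte := N.hte
  have hne := N.hn
  obtain ⟨S, e, h1, hS, he, hB⟩ := N'.exists_max (B := n) (fun x => by
    have := hb x; omega)
  have e1 := Nat.div_add_mod (n - 2) t
  have e2 := Nat.mod_lt (n - 2) (show 0 < t by omega)
  obtain ⟨K, hK⟩ : ∃ q, q = (n - 2) / t := ⟨_, rfl⟩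
  obtain ⟨r, hr⟩ : ∃ r, r = (n - 2) % t := ⟨_, rfl⟩
  rw [← hK, ← hr] at e1
  rw [← hr] at e2
  obtain ⟨u, hu⟩ : ∃ u, t = 2 * u := ⟨t / 2, by omega⟩
  have etK : t * K = 2 * (K * u) := by rw [hu]; ring
  rcases Nat.eq_zero_or_pos r with h0 | h0
  · -- the V case
    have hKu : (K * u) % 2 = 1 := by omega
    have hKo : Odd (K * u) := Nat.odd_iff.mpr hKu
    have hKodd : K % 2 = 1 := Nat.odd_iff.mp (Nat.odd_mul.mp hKo).1
    obtain ⟨l, hl⟩ : ∃ l, K = 2 * l + 1 := ⟨K / 2, by omega⟩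
    have e3 : 2 * l * t + t = n - 2 := by
      rw [← e1, h0, hl]; ring
    have hsize := aa N' hb l (by omega)
    have e3' : 2 * (l : ℤ) * t + t = n - 2 := by
      have : ((2 * l * t + t : ℕ) : ℤ) = ((n - 2 : ℕ) : ℤ) := by rw [e3]
      push_cast at this
      omega
    refine vcase N' (fun x => ?_) K ?_
    · have h3 := hsize x
      have h4 := N'.le x
      omega
    · rw [mul_comm]; omega
  · have hK1 : 1 ≤ K := by
      rcases Nat.eq_zero_or_pos K with h3 | h3
      · rw [h3] at e1; omega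
      · exact h3
    obtain ⟨l, rfl⟩ : ∃ l, K = l + 1 := ⟨K - 1, by omega⟩
    -- size bound
    have f1 := Nat.div_add_mod (n - t) (2 * t)
    have f2 := Nat.mod_lt (n - t) (show 0 < 2 * t by omega)
    obtain ⟨l', hl'⟩ : ∃ q, q = (n - t) / (2 * t) := ⟨_, rfl⟩
    rw [← hl'] at f1
    have f3 : 2 * l' * t = 2 * t * l' := by ring
    have hsize := aa N' hb l' (by omega) (e - S + 1)
    have f3' : 2 * (l' : ℤ) * t = ((2 * t * l' : ℕ) : ℤ) := by push_cast; ring
    rw [hB] at hsize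
    refine small_kill N' hS (by omega) he hB l (r + 1) ?_ (by omega) (by omega) ?_
    · rw [show (l + 1) * t = t * (l + 1) by ring]; omega
    · push_cast
      omega

/-- Every even length `m ≥ 2n - 2` implies `n`, for `4 ∣ n`. -/
theorem implies_even (n : ℕ) (hn : n % 4 = 0) (h4 : 4 ≤ n) (m : ℕ) (hm : 2 * n - 2 ≤ m)
    (hme : m % 2 = 0) : Implies m n := by
  intro V C _ c hrc
  by_contra hno
  classical
  have hex : ∃ L, (2 * n - 2 ≤ L ∧ L % 2 = 0) ∧ HasRainbowCycle c L := ⟨m, ⟨hm, hme⟩, hrc⟩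
  obtain ⟨⟨h1, h1'⟩, h2⟩ := Nat.find_spec hex
  have hmin : ∀ L, 2 * n - 2 ≤ L → L % 2 = 0 → L < Nat.find hex → ¬ HasRainbowCycle c L := by
    intro L hL hL1 hL2 hL3
    exact Nat.find_min hex hL2 ⟨⟨hL, hL1⟩, hL3⟩
  generalize Nat.find hex = m0 at h1 h1' h2 hmin
  obtain ⟨v, F⟩ := h2.exists_frame
  obtain ⟨t, ht⟩ : ∃ t, m0 + 4 = 2 * n + t := ⟨m0 + 4 - 2 * n, by omega⟩
  have hclo := fun b (hb : 3 ≤ b) (hnb : ¬ HasRainbowCycle c b) =>
    closure (c := c) (a := n) (b := b) (by omega) hb hno hnb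
  rcases Nat.lt_or_ge t 3 with h3 | h3
  · have : m0 = 2 * n - 2 := by omega
    subst this
    exact hclo n (by omega) hno (by rw [show n + n - 2 = 2 * n - 2 by omega]; exact h2)
  · have h5 : t + 2 ≤ n := by
      by_contra hcon
      refine hclo (m0 - (n - 2)) (by omega) (hmin _ (by omega) (by omega) (by omega)) ?_
      rw [show n + (m0 - (n - 2)) - 2 = m0 by omega]
      exact h2
    have N : Base c n t m0 v :=
      ⟨F, ht, h3, h5, hn, by omega, hno, fun L hL0 hL1 hL2 => hmin L (by omega) hL0 hL2⟩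
    exact N.false

end Pool.Agent.helper64.RE
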